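import Mathlib

/-!
Definitions for the statement on strong density of nonnegative measures whose linear potential
has an integrable nonlinear image among nonnegative good measures.
-/

open MeasureTheory Set
open scoped Laplacian ContDiff ENNReal

namespace Pool.Agent.Lib.MP_8eef66_an

/-- Euclidean space of dimension `N`. -/
abbrev Euc (N : ℕ) : Type := EuclideanSpace ℝ (Fin N)

variable {N : ℕ}

/-- `ζ` is smooth on the closure of `Ω` and vanishes on the boundary of `Ω`. -/
def IsTest (Ω : Set (Euc N)) (ζ : Euc N → ℝ) : Prop :=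
  ContDiffOn ℝ ∞ ζ (closure Ω) ∧ ∀ x ∈ frontier Ω, ζ x = 0

/-- `u` solves the linear Dirichlet problem `-Δ u = μ` in `Ω`, `u = 0` on the boundary. -/
def SolvesLinear (Ω : Set (Euc N)) (μ : Measure (Euc N)) (u : Euc N → ℝ) : Prop :=
  IntegrableOn u Ω ∧
    ∀ ζ, IsTest Ω ζ → -(∫ x in Ω, u x * Δ ζ x) = ∫ x in Ω, ζ x ∂μ

/-- `u` solves the nonlinear Dirichlet problem `-Δ u + g(u) = μ` in `Ω`, `u = 0` on the
boundary. -/
def SolvesNonlinear (Ω : Set (Euc N)) (g : ℝ → ℝ) (μ : Measure (Euc N)) (u : Euc N → ℝ) : Prop :=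
  IntegrableOn u Ω ∧ IntegrableOn (fun x => g (u x)) Ω ∧
    ∀ ζ, IsTest Ω ζ →
      -(∫ x in Ω, u x * Δ ζ x) + (∫ x in Ω, g (u x) * ζ x) = ∫ x in Ω, ζ x ∂μ

/-- `μ` is a nonnegative good measure: a finite nonnegative measure carried by `Ω` for which the
nonlinear problem has a solution. -/
def IsGood (Ω : Set (Euc N)) (g : ℝ → ℝ) (μ : FiniteMeasure (Euc N)) : Prop :=
  (μ : Measure (Euc N)) Ωᶜ = 0 ∧ ∃ u, SolvesNonlinear Ω g (μ : Measure (Euc N)) u

/-- `μ` belongs to `V₊`: a finite nonnegative measure carried by `Ω` whose linear potential `u`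
has `g(u)` integrable on `Ω`. -/
def InVplus (Ω : Set (Euc N)) (g : ℝ → ℝ) (μ : FiniteMeasure (Euc N)) : Prop :=
  (μ : Measure (Euc N)) Ωᶜ = 0 ∧
    ∃ u, SolvesLinear Ω (μ : Measure (Euc N)) u ∧ IntegrableOn (fun x => g (u x)) Ω

/-- The total variation norm of the signed measure `μ - ν`. -/
noncomputable def tvDist (μ ν : FiniteMeasure (Euc N)) : ℝ≥0∞ :=
  ((μ : Measure (Euc N)).toSignedMeasure - (ν : Measure (Euc N)).toSignedMeasure).totalVariation
    univ

end Pool.Agent.Lib.MP_8eef66_an
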