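import Mathlib

/-!
Second derivatives, the chain rule for the Laplacian and the Green identity for a compactly
supported factor.
-/

open MeasureTheory Set Filter Topology
open scoped Laplacian ContDiff ENNReal RealInnerProductSpace

namespace Pool.Agent.Lib.MP_8eef66_an

variable {E : Type*} [NormedAddCommGroup E] [InnerProductSpace ℝ E] [FiniteDimensional ℝ E]

/-- Directional derivative. -/
noncomputable def dir (v : E) (f : E → ℝ) : E → ℝ := fun x => fderiv ℝ f x v

omit [FiniteDimensional ℝ E] in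
lemma contDiffAt_dir {f : E → ℝ} {x : E} (v : E) (hf : ContDiffAt ℝ 2 f x) :
    ContDiffAt ℝ 1 (dir v f) x := by
  have h : ContDiffAt ℝ 1 (fderiv ℝ f) x := hf.fderiv_right (by norm_num)
  exact h.clm_apply contDiffAt_const

omit [FiniteDimensional ℝ E] in
lemma continuousAt_dir {f : E → ℝ} {x : E} (v : E) (hf : ContDiffAt ℝ 1 f x) :
    ContinuousAt (dir v f) x := by
  have h : ContDiffAt ℝ 0 (fderiv ℝ f) x := hf.fderiv_right (by norm_num)
  exact (h.clm_apply contDiffAt_const).continuousAt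

omit [FiniteDimensional ℝ E] in
lemma dir_dir_eq {f : E → ℝ} {x : E} (v : E) (hf : ContDiffAt ℝ 2 f x) :
    dir v (dir v f) x = iteratedFDeriv ℝ 2 f x ![v, v] := by
  have h : DifferentiableAt ℝ (fderiv ℝ f) x :=
    (hf.fderiv_right (m := 1) (by norm_num)).differentiableAt (by norm_num)
  rw [iteratedFDeriv_two_apply]
  unfold dir
  rw [fderiv_clm_apply h (differentiableAt_const v)]
  simp

lemma laplacian_eq_sum_dir {f : E → ℝ} {x : E} (hf : ContDiffAt ℝ 2 f x) :
    Δ f x = ∑ i, dir (stdOrthonormalBasis ℝ E i) (dir (stdOrthonormalBasis ℝ E i) f) x := by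
  rw [InnerProductSpace.laplacian_eq_iteratedFDeriv_stdOrthonormalBasis]
  exact Finset.sum_congr rfl fun i _ => (dir_dir_eq _ hf).symm

lemma continuousAt_laplacian {f : E → ℝ} {x : E} (hf : ContDiffAt ℝ 2 f x) :
    ContinuousAt (Δ f) x := by
  have h1 : ∀ᶠ y in 𝓝 x, ContDiffAt ℝ 2 f y := hf.eventually (by simp)
  have h2 : (Δ f) =ᶠ[𝓝 x] fun y =>
      ∑ i, dir (stdOrthonormalBasis ℝ E i) (dir (stdOrthonormalBasis ℝ E i) f) y := by
    filter_upwards [h1] with y hy using laplacian_eq_sum_dir hy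
  rw [continuousAt_congr h2]
  exact tendsto_finsetSum _ fun i _ => continuousAt_dir _ (contDiffAt_dir _ hf)

lemma laplacian_eq_zero_of_notMem {f : E → ℝ} {x : E} (hx : x ∉ tsupport f) : Δ f x = 0 := by
  have h : f =ᶠ[𝓝 x] fun _ => (0 : ℝ) := notMem_tsupport_iff_eventuallyEq.mp hx
  have := (InnerProductSpace.laplacian_congr_nhds h).self_of_nhds
  rw [this]
  simp

omit [FiniteDimensional ℝ E] in
lemma dir_comp {Φ : ℝ → ℝ} {f : E → ℝ} {x : E} (v : E) (hΦ : DifferentiableAt ℝ Φ (f x))
    (hf : DifferentiableAt ℝ f x) :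
    dir v (fun y => Φ (f y)) x = deriv Φ (f x) * dir v f x := by
  have := hΦ.hasDerivAt.comp_hasFDerivAt x hf.hasFDerivAt
  unfold dir
  rw [show (fun y => Φ (f y)) = Φ ∘ f from rfl, this.fderiv]
  simp

/-- Chain rule for the Laplacian. -/
lemma laplacian_comp {Φ : ℝ → ℝ} (hΦ : ContDiff ℝ 2 Φ) {f : E → ℝ} {x : E}
    (hf : ContDiffAt ℝ 2 f x) :
    Δ (fun y => Φ (f y)) x = deriv Φ (f x) * Δ f x +
      deriv (deriv Φ) (f x) * ∑ i, dir (stdOrthonormalBasis ℝ E i) f x ^ 2 := by
  have hc : ContDiffAt ℝ 2 (fun y => Φ (f y)) x := hΦ.contDiffAt.comp x hf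
  have hΦ1 : ContDiff ℝ 1 (deriv Φ) := by
    have := hΦ
    rw [show (2 : WithTop ℕ∞) = 1 + 1 from rfl, contDiff_succ_iff_deriv] at this
    exact this.2.2
  have hΦd : Differentiable ℝ Φ := hΦ.differentiable (by norm_num)
  have hΦd1 : Differentiable ℝ (deriv Φ) := hΦ1.differentiable (by norm_num)
  rw [laplacian_eq_sum_dir hc, laplacian_eq_sum_dir hf, Finset.mul_sum, Finset.mul_sum,
    ← Finset.sum_add_distrib]
  refine Finset.sum_congr rfl fun i _ => ?_
  set v := stdOrthonormalBasis ℝ E i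
  have h1 : ∀ᶠ y in 𝓝 x, ContDiffAt ℝ 2 f y := hf.eventually (by simp)
  have h2 : dir v (fun y => Φ (f y)) =ᶠ[𝓝 x] fun y => deriv Φ (f y) * dir v f y := by
    filter_upwards [h1] with y hy using dir_comp v (hΦd _) (hy.differentiableAt (by norm_num))
  have hfd : DifferentiableAt ℝ f x := hf.differentiableAt (by norm_num)
  have h3 : DifferentiableAt ℝ (fun y => deriv Φ (f y)) x := (hΦd1 _).comp x hfd
  have h4 : DifferentiableAt ℝ (dir v f) x := (contDiffAt_dir v hf).differentiableAt (by norm_num)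
  have h5 : dir v (dir v (fun y => Φ (f y))) x
      = dir v (fun y => deriv Φ (f y) * dir v f y) x := by
    unfold dir at h2 ⊢
    rw [h2.fderiv_eq]
  have h6 := dir_comp (Φ := deriv Φ) v (hΦd1 _) hfd
  rw [h5]
  have h7 : dir v (fun y => deriv Φ (f y) * dir v f y) x
      = deriv Φ (f x) * dir v (dir v f) x + dir v f x * dir v (fun y => deriv Φ (f y)) x := by
    show fderiv ℝ (fun y => deriv Φ (f y) * dir v f y) x v = _
    rw [fderiv_fun_mul h3 h4]
    simp [dir]
  rw [h7, h6]
  ring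

omit [FiniteDimensional ℝ E] in
lemma dir_normSq (y v x : E) : dir v (fun x => ‖x - y‖ ^ 2) x = 2 * ⟪x - y, v⟫ := by
  have h := ((hasFDerivAt_id (𝕜 := ℝ) x).sub_const y).norm_sq
  unfold dir
  have h' : HasFDerivAt (fun x => ‖x - y‖ ^ 2)
      (2 • (innerSL ℝ (x - y)).comp (ContinuousLinearMap.id ℝ E)) x := h
  rw [h'.fderiv]
  simp [inner_sub_left]

omit [FiniteDimensional ℝ E] in
lemma contDiff_normSq (y : E) {n : WithTop ℕ∞} : ContDiff ℝ n (fun x : E => ‖x - y‖ ^ 2) :=
  (contDiff_id.sub contDiff_const).norm_sq ℝ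

lemma laplacian_normSq (y x : E) :
    Δ (fun x : E => ‖x - y‖ ^ 2) x = 2 * (Module.finrank ℝ E : ℝ) := by
  rw [laplacian_eq_sum_dir (contDiff_normSq y).contDiffAt]
  have : ∀ v : E, dir v (dir v (fun x : E => ‖x - y‖ ^ 2)) x = 2 * ⟪v, v⟫ := by
    intro v
    have h1 : dir v (fun x : E => ‖x - y‖ ^ 2) = fun x => 2 * ⟪x - y, v⟫ :=
      funext fun x => dir_normSq y v x
    rw [h1]
    have h2 : HasFDerivAt (fun x : E => 2 * ⟪x - y, v⟫) ((2 : ℝ) • innerSL ℝ v) x := by
      have h3 : HasFDerivAt (fun x : E => ⟪v, x⟫) (innerSL ℝ v) x := (innerSL ℝ v).hasFDerivAt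
      have h4 := (h3.sub_const ⟪v, y⟫).const_mul 2
      have h5 : (fun x : E => 2 * ⟪x - y, v⟫) = fun z => 2 * (⟪v, z⟫ - ⟪v, y⟫) := by
        funext z
        rw [inner_sub_left, real_inner_comm, real_inner_comm y]
      rw [h5]
      exact h4
    unfold dir
    rw [h2.fderiv]
    simp
  simp only [this]
  simp [mul_comm]

lemma sum_dir_normSq_sq (y x : E) :
    ∑ i, dir (stdOrthonormalBasis ℝ E i) (fun x : E => ‖x - y‖ ^ 2) x ^ 2 = 4 * ‖x - y‖ ^ 2 := by
  simp only [dir_normSq, mul_pow]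
  rw [← Finset.mul_sum, (stdOrthonormalBasis ℝ E).sum_sq_inner_left]
  norm_num

/-- Laplacian of a radial function. -/
lemma laplacian_radial {Φ : ℝ → ℝ} (hΦ : ContDiff ℝ 2 Φ) (y x : E) :
    Δ (fun x : E => Φ (‖x - y‖ ^ 2)) x
      = 2 * (Module.finrank ℝ E : ℝ) * deriv Φ (‖x - y‖ ^ 2)
        + 4 * ‖x - y‖ ^ 2 * deriv (deriv Φ) (‖x - y‖ ^ 2) := by
  rw [laplacian_comp hΦ (contDiff_normSq y).contDiffAt, laplacian_normSq, sum_dir_normSq_sq]
  ring

variable [MeasurableSpace E] [BorelSpace E] {m : Measure E} [m.IsAddHaarMeasure]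

omit [InnerProductSpace ℝ E] [FiniteDimensional ℝ E] in
lemma integrable_mul_of_support {K : Set E} (hK : IsCompact K) {p q : E → ℝ} (hp : Continuous p)
    (hpK : tsupport p ⊆ K) (hq : ∀ x ∈ K, ContinuousAt q x) :
    Integrable (fun x => p x * q x) m := by
  have hs : tsupport (fun x => p x * q x) ⊆ K := tsupport_mul_subset_left.trans hpK
  have hc : Continuous (fun x => p x * q x) :=
    continuous_of_tsupport fun x hx => hp.continuousAt.mul (hq x (hs hx))
  exact hc.integrable_of_hasCompactSupport (hK.of_isClosed_subset (isClosed_tsupport _) hs)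

/-- Green identity for a compactly supported factor. -/
lemma green {a b : E → ℝ} (ha : ContDiff ℝ 2 a) (hac : HasCompactSupport a)
    (hb : ∀ x ∈ tsupport a, ContDiffAt ℝ 2 b x) :
    ∫ x, a x * Δ b x ∂m = ∫ x, Δ a x * b x ∂m := by
  set e := stdOrthonormalBasis ℝ E
  have hK : IsCompact (tsupport a) := hac
  have hs1 : ∀ v : E, tsupport (dir v a) ⊆ tsupport a := fun v => tsupport_fderiv_apply_subset ℝ v
  have hs2 : ∀ v : E, tsupport (dir v (dir v a)) ⊆ tsupport a := fun v =>
    (tsupport_fderiv_apply_subset ℝ v).trans (hs1 v)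
  have hc1 : ∀ v : E, ContDiff ℝ 1 (dir v a) := fun v =>
    contDiff_iff_contDiffAt.2 fun x => contDiffAt_dir v ha.contDiffAt
  have hc2 : ∀ v : E, Continuous (dir v (dir v a)) := fun v =>
    continuous_iff_continuousAt.2 fun x => continuousAt_dir v (hc1 v).contDiffAt
  have i1 : ∀ v : E, Integrable (fun x => a x * dir v (dir v b) x) m := fun v =>
    integrable_mul_of_support hK ha.continuous le_rfl
      fun x hx => continuousAt_dir v (contDiffAt_dir v (hb x hx))
  have i2 : ∀ v : E, Integrable (fun x => dir v a x * dir v b x) m := fun v =>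
    integrable_mul_of_support hK (hc1 v).continuous (hs1 v)
      fun x hx => (contDiffAt_dir v (hb x hx)).continuousAt
  have i3 : ∀ v : E, Integrable (fun x => a x * dir v b x) m := fun v =>
    integrable_mul_of_support hK ha.continuous le_rfl
      fun x hx => (contDiffAt_dir v (hb x hx)).continuousAt
  have i4 : ∀ v : E, Integrable (fun x => dir v (dir v a) x * b x) m := fun v =>
    integrable_mul_of_support hK (hc2 v) (hs2 v) fun x hx => (hb x hx).continuousAt
  have i5 : ∀ v : E, Integrable (fun x => dir v a x * b x) m := fun v =>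
    integrable_mul_of_support hK (hc1 v).continuous (hs1 v) fun x hx => (hb x hx).continuousAt
  have key : ∀ v : E, ∫ x, a x * dir v (dir v b) x ∂m = ∫ x, dir v (dir v a) x * b x ∂m := by
    intro v
    have h1 := integral_mul_fderiv_eq_neg_fderiv_mul_of_integrable (μ := m) (f := a)
      (g := dir v b) (v := v) (i2 v) (i1 v) (i3 v)
      (fun x _ => ha.differentiable (by norm_num) x)
      (fun x hx => (contDiffAt_dir v (hb x hx)).differentiableAt (by norm_num))
    have h2 := integral_mul_fderiv_eq_neg_fderiv_mul_of_integrable (μ := m) (f := dir v a)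
      (g := b) (v := v) (i4 v) (i2 v) (i5 v)
      (fun x _ => (hc1 v).differentiable (by norm_num) x)
      (fun x hx => (hb x (hs1 v hx)).differentiableAt (by norm_num))
    have h1' : ∫ x, a x * dir v (dir v b) x ∂m = -∫ x, dir v a x * dir v b x ∂m := h1
    have h2' : ∫ x, dir v a x * dir v b x ∂m = -∫ x, dir v (dir v a) x * b x ∂m := h2
    rw [h1', h2', neg_neg]
  have e1 : (fun x => a x * Δ b x) = fun x => ∑ i, a x * dir (e i) (dir (e i) b) x := by
    funext x
    by_cases hx : x ∈ tsupport a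
    · rw [laplacian_eq_sum_dir (hb x hx), Finset.mul_sum]
    · simp [image_eq_zero_of_notMem_tsupport hx]
  have e2 : (fun x => Δ a x * b x) = fun x => ∑ i, dir (e i) (dir (e i) a) x * b x := by
    funext x
    rw [laplacian_eq_sum_dir ha.contDiffAt, Finset.sum_mul]
  rw [e1, e2, integral_finsetSum _ fun i _ => i1 _, integral_finsetSum _ fun i _ => i4 _]
  exact Finset.sum_congr rfl fun i _ => key _

end Pool.Agent.Lib.MP_8eef66_an
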