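import Mathlib
import Pool.Agent.Lib.MP_8eef66_an.Green

/-!
The smooth cutoff and the kernels built from it.
-/

open MeasureTheory Set Filter Topology
open scoped Laplacian ENNReal RealInnerProductSpace

namespace Pool.Agent.Lib.MP_8eef66_an

/-- Smooth nonincreasing cutoff, one below `1` and zero above `4`. -/
noncomputable def cut (t : ℝ) : ℝ := 1 - Real.smoothTransition ((t - 1) / 3)

lemma cut_contDiff {n : ℕ∞} : ContDiff ℝ n cut :=
  contDiff_const.sub
    (Real.smoothTransition.contDiff.comp ((contDiff_id.sub contDiff_const).div_const 3))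

lemma cut_eq_one {t : ℝ} (h : t ≤ 1) : cut t = 1 := by
  unfold cut
  rw [Real.smoothTransition.zero_of_nonpos (by linarith), sub_zero]

lemma cut_eq_zero {t : ℝ} (h : 4 ≤ t) : cut t = 0 := by
  unfold cut
  rw [Real.smoothTransition.one_of_one_le (by linarith), sub_self]

lemma cut_nonneg (t : ℝ) : 0 ≤ cut t := sub_nonneg.2 (Real.smoothTransition.le_one _)

lemma cut_le_one (t : ℝ) : cut t ≤ 1 := sub_le_self _ (Real.smoothTransition.nonneg _)

lemma cut_antitone : Antitone cut := fun s t h =>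
  sub_le_sub_left (Real.smoothTransition.monotone (by linarith)) 1

lemma dcut_nonpos (t : ℝ) : deriv cut t ≤ 0 := cut_antitone.deriv_nonpos

lemma dcut_eq_zero {t : ℝ} (h : 4 ≤ t) : deriv cut t = 0 :=
  IsLocalMin.deriv_eq_zero (Eventually.of_forall fun s => by
    rw [cut_eq_zero h]; exact cut_nonneg s)

lemma ddcut_eq_zero {t : ℝ} (h : 4 ≤ t) : deriv (deriv cut) t = 0 :=
  IsLocalMax.deriv_eq_zero (Eventually.of_forall fun s => by
    rw [dcut_eq_zero h]; exact dcut_nonpos s)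

lemma dcut_contDiff : ContDiff ℝ 1 (deriv cut) := by
  have : ContDiff ℝ 2 cut := cut_contDiff (n := 2)
  rw [show (2 : WithTop ℕ∞) = 1 + 1 from rfl, contDiff_succ_iff_deriv] at this
  exact this.2.2

@[fun_prop]
lemma cut_continuous : Continuous cut := (cut_contDiff (n := 0)).continuous

@[fun_prop]
lemma dcut_continuous : Continuous (deriv cut) := dcut_contDiff.continuous

@[fun_prop]
lemma ddcut_continuous : Continuous (deriv (deriv cut)) := dcut_contDiff.continuous_deriv le_rfl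

lemma hasDerivAt_cut (t : ℝ) : HasDerivAt cut (deriv cut t) t :=
  ((cut_contDiff (n := 1)).differentiable (by norm_num) t).hasDerivAt

lemma hasDerivAt_dcut (t : ℝ) : HasDerivAt (deriv cut) (deriv (deriv cut) t) t :=
  (dcut_contDiff.differentiable (by norm_num) t).hasDerivAt

lemma exists_dcut_ne : ∃ t, 0 < t ∧ deriv cut t ≠ 0 := by
  obtain ⟨t, ht, h⟩ := exists_deriv_eq_slope cut (show (1 : ℝ) < 4 by norm_num)
    cut_continuous.continuousOn
    (fun x _ => (hasDerivAt_cut x).differentiableAt.differentiableWithinAt)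
  refine ⟨t, by linarith [ht.1], ?_⟩
  rw [h, cut_eq_one le_rfl, cut_eq_zero le_rfl]
  norm_num

lemma exists_bound_of_zero {f : ℝ → ℝ} (hf : Continuous f) (h : ∀ t, 4 ≤ t → f t = 0) :
    ∃ B, 0 ≤ B ∧ ∀ t, 0 ≤ t → |f t| ≤ B := by
  obtain ⟨B, hB⟩ := isCompact_Icc.exists_bound_of_continuousOn (hf.continuousOn (s := Icc 0 4))
  have hB0 : 0 ≤ B := (norm_nonneg _).trans (hB 0 ⟨le_rfl, by norm_num⟩)
  refine ⟨B, hB0, fun t ht => ?_⟩
  rcases le_total t 4 with h4 | h4
  · exact hB t ⟨ht, h4⟩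
  · rw [h t h4, abs_zero]
    exact hB0

/-- Bump at scale `s`, as a function of the squared distance. -/
noncomputable def eta (n : ℕ) (s τ : ℝ) : ℝ := s / s ^ n * cut (τ / s ^ 2)

/-- Mollifier at scale `s`, as a function of the squared distance. -/
noncomputable def rho (n : ℕ) (s τ : ℝ) : ℝ := -2 / s ^ n * deriv cut (τ / s ^ 2)

/-- Laplacian of the bump at scale `s`, as a function of the squared distance. -/
noncomputable def lam (n : ℕ) (s τ : ℝ) : ℝ :=
  (2 * n * deriv cut (τ / s ^ 2) + 4 * (τ / s ^ 2) * deriv (deriv cut) (τ / s ^ 2)) / (s * s ^ n)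

lemma eta_nonneg (n : ℕ) {s : ℝ} (hs : 0 ≤ s) (τ : ℝ) : 0 ≤ eta n s τ :=
  mul_nonneg (by positivity) (cut_nonneg _)

lemma eta_le (n : ℕ) {s : ℝ} (hs : 0 ≤ s) (τ : ℝ) : eta n s τ ≤ s / s ^ n :=
  mul_le_of_le_one_right (by positivity) (cut_le_one _)

lemma rho_nonneg (n : ℕ) {s : ℝ} (hs : 0 ≤ s) (τ : ℝ) : 0 ≤ rho n s τ :=
  mul_nonneg_of_nonpos_of_nonpos
    (div_nonpos_of_nonpos_of_nonneg (by norm_num) (by positivity)) (dcut_nonpos _)

lemma four_le_div {s t : ℝ} (hs : 0 < s) (h : 2 * s ≤ t) : 4 ≤ t ^ 2 / s ^ 2 := by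
  rw [le_div_iff₀ (by positivity)]
  nlinarith

lemma eta_eq_zero (n : ℕ) {s t : ℝ} (hs : 0 < s) (h : 2 * s ≤ t) : eta n s (t ^ 2) = 0 := by
  rw [eta, cut_eq_zero (four_le_div hs h), mul_zero]

lemma rho_eq_zero (n : ℕ) {s t : ℝ} (hs : 0 < s) (h : 2 * s ≤ t) : rho n s (t ^ 2) = 0 := by
  rw [rho, dcut_eq_zero (four_le_div hs h), mul_zero]

lemma lam_eq_zero (n : ℕ) {s t : ℝ} (hs : 0 < s) (h : 2 * s ≤ t) : lam n s (t ^ 2) = 0 := by
  rw [lam, dcut_eq_zero (four_le_div hs h), ddcut_eq_zero (four_le_div hs h)]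
  simp

lemma eta_eq_of_le (n : ℕ) {s t : ℝ} (hs : 0 < s) (ht : 0 ≤ t) (h : t ≤ s) :
    eta n s (t ^ 2) = s / s ^ n := by
  rw [eta, cut_eq_one, mul_one]
  rw [div_le_one (by positivity)]
  nlinarith

lemma exists_rho_bound : ∃ B, 0 ≤ B ∧ ∀ (n : ℕ) (s τ : ℝ), 0 < s → 0 ≤ τ →
    rho n s τ ≤ B / s ^ n := by
  obtain ⟨B, hB0, hB⟩ := exists_bound_of_zero dcut_continuous fun t ht => dcut_eq_zero ht
  refine ⟨2 * B, by positivity, fun n s τ hs hτ => ?_⟩
  have h1 := (abs_le.1 (hB (τ / s ^ 2) (by positivity))).1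
  rw [rho, div_mul_eq_mul_div]
  exact div_le_div_of_nonneg_right (by linarith) (by positivity)

lemma exists_lam_bound (n : ℕ) : ∃ B, 0 ≤ B ∧ ∀ (s τ : ℝ), 0 < s → 0 ≤ τ →
    |lam n s τ| ≤ B / (s * s ^ n) := by
  obtain ⟨B, hB0, hB⟩ := exists_bound_of_zero
    (f := fun t => 2 * n * deriv cut t + 4 * t * deriv (deriv cut) t) (by fun_prop)
    fun t ht => by simp [dcut_eq_zero ht, ddcut_eq_zero ht]
  refine ⟨B, hB0, fun s τ hs hτ => ?_⟩
  rw [lam, abs_div, abs_of_pos (by positivity : 0 < s * s ^ n)]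
  exact div_le_div_of_nonneg_right (hB (τ / s ^ 2) (by positivity)) (by positivity)

@[fun_prop]
lemma measurable_eta (n : ℕ) {α : Type*} [MeasurableSpace α] {f g : α → ℝ} (hf : Measurable f)
    (hg : Measurable g) : Measurable fun a => eta n (f a) (g a) := by
  unfold eta
  have := cut_continuous.measurable
  fun_prop

@[fun_prop]
lemma measurable_rho (n : ℕ) {α : Type*} [MeasurableSpace α] {f g : α → ℝ} (hf : Measurable f)
    (hg : Measurable g) : Measurable fun a => rho n (f a) (g a) := by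
  unfold rho
  have := dcut_continuous.measurable
  fun_prop

@[fun_prop]
lemma measurable_lam (n : ℕ) {α : Type*} [MeasurableSpace α] {f g : α → ℝ} (hf : Measurable f)
    (hg : Measurable g) : Measurable fun a => lam n (f a) (g a) := by
  unfold lam
  have := dcut_continuous.measurable
  have := ddcut_continuous.measurable
  fun_prop

lemma continuous_rho (n : ℕ) (s : ℝ) : Continuous (rho n s) := by
  unfold rho
  fun_prop

lemma continuousOn_lam (n : ℕ) (τ : ℝ) : ContinuousOn (fun s => lam n s τ) (Ioi 0) := by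
  intro s hs
  have hs' : s ≠ 0 := ne_of_gt hs
  have h1 : ContinuousAt (fun s : ℝ => τ / s ^ 2) s :=
    continuousAt_const.div (by fun_prop) (by positivity)
  refine ContinuousAt.continuousWithinAt ?_
  unfold lam
  refine ContinuousAt.div ?_ (by fun_prop) (by positivity)
  exact (continuousAt_const.mul (dcut_continuous.continuousAt.comp h1)).add
    ((continuousAt_const.mul h1).mul (ddcut_continuous.continuousAt.comp h1))

lemma hasDerivAt_rho (n : ℕ) {s : ℝ} (hs : 0 < s) (τ : ℝ) :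
    HasDerivAt (fun s => rho n s τ) (lam n s τ) s := by
  have hs' : s ≠ 0 := hs.ne'
  have h1 : HasDerivAt (fun s : ℝ => τ / s ^ 2) (-(τ * (2 * s)) / (s ^ 2) ^ 2) s := by
    have := (hasDerivAt_const s τ).fun_div (hasDerivAt_pow 2 s) (by positivity)
    refine this.congr_deriv ?_
    simp
  have h2 : HasDerivAt (fun s : ℝ => -2 / s ^ n) (2 * (n * s ^ (n - 1)) / (s ^ n) ^ 2) s := by
    have := (hasDerivAt_const s (-2 : ℝ)).fun_div (hasDerivAt_pow n s) (by positivity)
    refine this.congr_deriv ?_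
    simp
  have h3 := h2.mul ((hasDerivAt_dcut (τ / s ^ 2)).comp s h1)
  have h4 : (n : ℝ) * s ^ (n - 1) = n * s ^ n / s := by
    cases n with
    | zero => simp
    | succ k => rw [Nat.add_sub_cancel, pow_succ]; field_simp
  rw [h4] at h3
  refine HasDerivAt.congr_deriv h3 ?_
  simp only [lam, Function.comp]
  field_simp
  ring

lemma integral_lam (n : ℕ) {a b : ℝ} (ha : 0 < a) (hab : a ≤ b) (τ : ℝ) :
    ∫ s in Ioc a b, lam n s τ = rho n b τ - rho n a τ := by
  rw [← intervalIntegral.integral_of_le hab]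
  have hsub : uIcc a b ⊆ Ioi 0 := fun s hs => by
    rw [uIcc_of_le hab] at hs
    exact ha.trans_le hs.1
  exact intervalIntegral.integral_eq_sub_of_hasDerivAt (f := fun s => rho n s τ)
    (fun s hs => hasDerivAt_rho n (hsub hs) τ)
    ((continuousOn_lam n τ).mono hsub).intervalIntegrable

lemma eta_contDiff (n : ℕ) (s : ℝ) {k : ℕ∞} : ContDiff ℝ k (eta n s) :=
  contDiff_const.mul (cut_contDiff.comp (contDiff_id.div_const _))

lemma deriv_eta (n : ℕ) (s : ℝ) :
    deriv (eta n s) = fun τ => s / s ^ n * (deriv cut (τ / s ^ 2) / s ^ 2) := by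
  funext τ
  have h := ((hasDerivAt_cut (τ / s ^ 2)).comp τ ((hasDerivAt_id τ).div_const (s ^ 2))).const_mul
    (s / s ^ n)
  have h' : HasDerivAt (eta n s) (s / s ^ n * (deriv cut (τ / s ^ 2) * (1 / s ^ 2))) τ := h
  rw [h'.deriv]
  ring

lemma deriv_deriv_eta (n : ℕ) (s τ : ℝ) :
    deriv (deriv (eta n s)) τ = s / s ^ n * (deriv (deriv cut) (τ / s ^ 2) / s ^ 2 / s ^ 2) := by
  rw [deriv_eta]
  have h := (((hasDerivAt_dcut (τ / s ^ 2)).comp τ
    ((hasDerivAt_id τ).div_const (s ^ 2))).div_const (s ^ 2)).const_mul (s / s ^ n)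
  have h' : HasDerivAt (fun τ => s / s ^ n * (deriv cut (τ / s ^ 2) / s ^ 2))
      (s / s ^ n * (deriv (deriv cut) (τ / s ^ 2) * (1 / s ^ 2) / s ^ 2)) τ := h
  rw [h'.deriv]
  ring

section Space

variable {E : Type*} [NormedAddCommGroup E] [InnerProductSpace ℝ E] [FiniteDimensional ℝ E]

lemma laplacian_eta {s : ℝ} (hs : 0 < s) (y x : E) :
    Δ (fun x : E => eta (Module.finrank ℝ E) s (‖x - y‖ ^ 2)) x
      = lam (Module.finrank ℝ E) s (‖x - y‖ ^ 2) := by
  rw [laplacian_radial (eta_contDiff _ s (k := 2)), deriv_deriv_eta, deriv_eta, lam]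
  field_simp

omit [FiniteDimensional ℝ E] in
lemma contDiff_eta_normSq (n : ℕ) (s : ℝ) (y : E) {k : ℕ∞} :
    ContDiff ℝ k (fun x : E => eta n s (‖x - y‖ ^ 2)) :=
  (eta_contDiff n s).comp (contDiff_normSq y)

omit [InnerProductSpace ℝ E] [FiniteDimensional ℝ E] in
lemma tsupport_eta (n : ℕ) {s : ℝ} (hs : 0 < s) (y : E) :
    tsupport (fun x : E => eta n s (‖x - y‖ ^ 2)) ⊆ Metric.closedBall y (2 * s) := by
  refine closure_minimal (fun x hx => ?_) Metric.isClosed_closedBall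
  by_contra h
  rw [mem_closedBall_iff_norm, not_le] at h
  exact hx (eta_eq_zero n hs h.le)

end Space

/-- The weight `s / s ^ n`. -/
noncomputable def kf (n : ℕ) (s : ℝ) : ℝ≥0∞ := ENNReal.ofReal (s / s ^ n)

@[fun_prop]
lemma measurable_kf (n : ℕ) : Measurable (kf n) := by
  unfold kf
  fun_prop

lemma lintegral_kf_lt_top (n : ℕ) {a : ℝ} (ha : 0 < a) (b : ℝ) :
    ∫⁻ s in Ioc a b, kf n s < ∞ := by
  calc ∫⁻ s in Ioc a b, kf n s ≤ ∫⁻ _ in Ioc a b, ENNReal.ofReal (b / a ^ n) := by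
        refine setLIntegral_mono' measurableSet_Ioc fun s hs => ENNReal.ofReal_le_ofReal ?_
        have h1 : 0 < s := ha.trans hs.1
        exact div_le_div₀ (h1.le.trans hs.2) hs.2 (by positivity)
          (pow_le_pow_left₀ ha.le hs.1.le n)
    _ < ∞ := by
        rw [setLIntegral_const]
        exact ENNReal.mul_lt_top ENNReal.ofReal_lt_top measure_Ioc_lt_top

lemma lintegral_kf_scale (n : ℕ) {l a : ℝ} (hl : 1 ≤ l) (ha : 0 ≤ a) (b : ℝ) (h : ℝ → ℝ≥0∞) :
    ∫⁻ s in Ioc a b, kf n s * h s ≤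
      ENNReal.ofReal (l ^ n) * ∫⁻ s in Ioc (l * a) (l * b), kf n s * h (s / l) := by
  have hl0 : 0 < l := by linarith
  rw [← image_mul_left_Ioc hl0, lintegral_image_eq_lintegral_abs_deriv_mul measurableSet_Ioc
    (f' := fun _ => l) (fun x _ => by
      simpa using ((hasDerivAt_id x).const_mul l).hasDerivWithinAt)
    (fun x _ y _ hxy => mul_left_cancel₀ hl0.ne' hxy),
    ← lintegral_const_mul' _ _ ENNReal.ofReal_ne_top]
  refine setLIntegral_mono' measurableSet_Ioc fun s hs => ?_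
  have hs0 : 0 < s := ha.trans_lt hs.1
  rw [mul_div_cancel_left₀ _ hl0.ne', ← mul_assoc, ← mul_assoc]
  refine mul_le_mul_left ?_ _
  rw [kf, kf, ← ENNReal.ofReal_mul (by positivity), ← ENNReal.ofReal_mul (by positivity)]
  refine ENNReal.ofReal_le_ofReal ?_
  rw [abs_of_pos hl0, mul_pow]
  have : l ^ n * l * (l * s / (l ^ n * s ^ n)) = l * l * (s / s ^ n) := by field_simp
  rw [this]
  exact le_mul_of_one_le_left (by positivity) (by nlinarith)

/-- The radial kernel. -/
noncomputable def gam (n : ℕ) (R t : ℝ) : ℝ≥0∞ :=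
  ∫⁻ s in Ioc 0 R, ENNReal.ofReal (eta n s (t ^ 2))

@[fun_prop]
lemma measurable_gam (n : ℕ) (R : ℝ) : Measurable (gam n R) := by
  unfold gam
  refine Measurable.lintegral_prod_right (f := fun t s => ENNReal.ofReal (eta n s (t ^ 2))) ?_
  unfold Function.uncurry
  fun_prop

lemma gam_eq (n : ℕ) (R t : ℝ) :
    gam n R t = ∫⁻ s in Ioc 0 R, kf n s * ENNReal.ofReal (cut (t ^ 2 / s ^ 2)) := by
  refine setLIntegral_congr_fun measurableSet_Ioc fun s hs => ?_
  have := hs.1
  simp only [kf, eta]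
  rw [ENNReal.ofReal_mul (by positivity)]

lemma gam_anti (n : ℕ) (R : ℝ) {t t' : ℝ} (ht : 0 ≤ t) (h : t ≤ t') : gam n R t' ≤ gam n R t := by
  rw [gam_eq, gam_eq]
  refine lintegral_mono fun s => mul_le_mul_right (ENNReal.ofReal_le_ofReal (cut_antitone ?_)) _
  exact div_le_div_of_nonneg_right (pow_le_pow_left₀ ht h 2) (by positivity)

lemma gam_scale (n : ℕ) {R l : ℝ} (hR : 0 < R) (hl : 1 ≤ l) (t : ℝ) :
    gam n R t ≤ ENNReal.ofReal (l ^ n) * (gam n R (l * t) + ∫⁻ s in Ioc R (l * R), kf n s) := by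
  have hl0 : 0 < l := by linarith
  rw [gam_eq]
  refine (lintegral_kf_scale n hl le_rfl R _).trans (mul_le_mul_right ?_ _)
  rw [mul_zero, ← Ioc_union_Ioc_eq_Ioc hR.le (le_mul_of_one_le_left hR.le hl)]
  refine (lintegral_union_le _ _ _).trans (add_le_add (le_of_eq ?_) ?_)
  · rw [gam_eq]
    refine lintegral_congr fun s => ?_
    congr 3
    field_simp
  · refine lintegral_mono fun s => mul_le_of_le_one_right' ?_
    exact ENNReal.ofReal_le_one.2 (cut_le_one _)

lemma gam_lt_top (n : ℕ) (R : ℝ) {t : ℝ} (ht : 0 < t) : gam n R t < ∞ := by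
  have h1 : gam n R t ≤ ∫⁻ s in Ioc 0 R, (Ioc (t / 2) R).indicator (kf n) s := by
    refine setLIntegral_mono' measurableSet_Ioc fun s hs => ?_
    by_cases h : t / 2 < s
    · rw [indicator_of_mem (show s ∈ Ioc (t / 2) R from ⟨h, hs.2⟩)]
      exact ENNReal.ofReal_le_ofReal (eta_le n hs.1.le _)
    · rw [eta_eq_zero n hs.1 (by linarith [not_lt.1 h])]
      simp
  refine h1.trans_lt ((setLIntegral_le_lintegral _ _).trans_lt ?_)
  rw [lintegral_indicator measurableSet_Ioc]
  exact lintegral_kf_lt_top n (by positivity) R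

lemma gam_eq_zero (n : ℕ) {R t : ℝ} (h : 2 * R ≤ t) : gam n R t = 0 := by
  rw [gam, setLIntegral_congr_fun measurableSet_Ioc (g := fun _ => 0), lintegral_zero]
  intro s hs
  simp only
  rw [eta_eq_zero n hs.1 (by linarith [hs.2]), ENNReal.ofReal_zero]

lemma toReal_gam (n : ℕ) (R t : ℝ) :
    (gam n R t).toReal = ∫ s in Ioc 0 R, eta n s (t ^ 2) := by
  rw [gam, integral_eq_lintegral_of_nonneg_ae]
  · filter_upwards [ae_restrict_mem measurableSet_Ioc] with s hs using eta_nonneg n hs.1.le _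
  · exact Measurable.aestronglyMeasurable (by fun_prop)

end Pool.Agent.Lib.MP_8eef66_an
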