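import Mathlib
import Pool.Agent.Lib.MP_8eef66_an.Kernel

/-!
Truncated potentials of measures and their elementary comparison properties.
-/

open MeasureTheory Set Filter Topology Metric
open scoped ENNReal

namespace Pool.Agent.Lib.MP_8eef66_an

variable {E : Type*} [NormedAddCommGroup E] [MeasurableSpace E]

/-- Truncated potential of a measure. -/
noncomputable def pot (n : ℕ) (R : ℝ) (σ : Measure E) (y : E) : ℝ≥0∞ :=
  ∫⁻ z, gam n R ‖z - y‖ ∂σ

/-- The bump at scale `s` integrated against a measure. -/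
noncomputable def slice (n : ℕ) (σ : Measure E) (y : E) (s : ℝ) : ℝ≥0∞ :=
  ∫⁻ z, ENNReal.ofReal (eta n s (‖z - y‖ ^ 2)) ∂σ

lemma pot_mono (n : ℕ) (R : ℝ) {σ τ : Measure E} (h : σ ≤ τ) (y : E) :
    pot n R σ y ≤ pot n R τ y := lintegral_mono' h le_rfl

lemma pot_add (n : ℕ) (R : ℝ) (σ τ : Measure E) (y : E) :
    pot n R (σ + τ) y = pot n R σ y + pot n R τ y := lintegral_add_measure _ _ _

lemma pot_smul (n : ℕ) (R : ℝ) (c : ℝ≥0∞) (σ : Measure E) (y : E) :
    pot n R (c • σ) y = c * pot n R σ y := by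
  rw [pot, lintegral_smul_measure, smul_eq_mul, pot]

variable [BorelSpace E] [SecondCountableTopology E]

lemma measurable_pot (n : ℕ) (R : ℝ) (σ : Measure E) [SFinite σ] : Measurable (pot n R σ) := by
  unfold pot
  refine Measurable.lintegral_prod_right (f := fun y z => gam n R ‖z - y‖) ?_
  unfold Function.uncurry
  fun_prop

lemma measurable_slice (n : ℕ) (σ : Measure E) [SFinite σ] :
    Measurable (fun p : E × ℝ => slice n σ p.1 p.2) := by
  unfold slice
  refine Measurable.lintegral_prod_right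
    (f := fun (p : E × ℝ) z => ENNReal.ofReal (eta n p.2 (‖z - p.1‖ ^ 2))) ?_
  unfold Function.uncurry
  fun_prop

lemma pot_eq (n : ℕ) (R : ℝ) (σ : Measure E) [SFinite σ] (y : E) :
    pot n R σ y = ∫⁻ s in Ioc 0 R, slice n σ y s := by
  unfold pot gam slice
  refine lintegral_lintegral_swap (Measurable.aemeasurable ?_)
  unfold Function.uncurry
  fun_prop

omit [SecondCountableTopology E] in
lemma slice_le (n : ℕ) (σ : Measure E) (y : E) {s : ℝ} (hs : 0 < s) :
    slice n σ y s ≤ kf n s * σ (closedBall y (2 * s)) := by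
  rw [← lintegral_indicator_const measurableSet_closedBall]
  refine lintegral_mono fun z => ?_
  by_cases hz : z ∈ closedBall y (2 * s)
  · rw [indicator_of_mem hz]
    exact ENNReal.ofReal_le_ofReal (eta_le n hs.le _)
  · rw [mem_closedBall_iff_norm, not_le] at hz
    simp [eta_eq_zero n hs hz.le]

omit [SecondCountableTopology E] in
lemma le_slice (n : ℕ) (σ : Measure E) (y : E) {s : ℝ} (hs : 0 < s) :
    kf n s * σ (closedBall y s) ≤ slice n σ y s := by
  rw [← lintegral_indicator_const measurableSet_closedBall]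
  refine lintegral_mono fun z => ?_
  by_cases hz : z ∈ closedBall y s
  · rw [indicator_of_mem hz, eta_eq_of_le n hs (norm_nonneg _) (mem_closedBall_iff_norm.1 hz)]
    exact le_rfl
  · simp [indicator_of_notMem hz]

omit [SecondCountableTopology E] in
lemma pot_compare (n : ℕ) {R l : ℝ} (hR : 0 < R) (hl : 1 ≤ l) (μ : Measure E) {K : Set E}
    (hK : MeasurableSet K) {x y : E} (h : ∀ z ∈ K, ‖z - x‖ ≤ l * ‖z - y‖) :
    pot n R (μ.restrict K) y ≤ ENNReal.ofReal (l ^ n) *
      (pot n R μ x + (∫⁻ s in Ioc R (l * R), kf n s) * μ univ) := by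
  calc pot n R (μ.restrict K) y
      ≤ ∫⁻ z in K, ENNReal.ofReal (l ^ n) *
          (gam n R ‖z - x‖ + ∫⁻ s in Ioc R (l * R), kf n s) ∂μ := by
        refine setLIntegral_mono' hK fun z hz => (gam_scale n hR hl _).trans ?_
        gcongr
        exact gam_anti n R (norm_nonneg _) (h z hz)
    _ ≤ ∫⁻ z, ENNReal.ofReal (l ^ n) *
          (gam n R ‖z - x‖ + ∫⁻ s in Ioc R (l * R), kf n s) ∂μ := setLIntegral_le_lintegral _ _
    _ = _ := by
        rw [lintegral_const_mul' _ _ ENNReal.ofReal_ne_top,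
          lintegral_add_right _ measurable_const, lintegral_const, pot]

omit [SecondCountableTopology E] in
lemma pot_far (n : ℕ) (R : ℝ) (μ : Measure E) {K : Set E} (hK : MeasurableSet K) {y : E}
    {d : ℝ} (hd : 0 ≤ d) (h : ∀ z ∈ K, d ≤ ‖z - y‖) :
    pot n R (μ.restrict K) y ≤ gam n R d * μ univ := by
  calc pot n R (μ.restrict K) y ≤ ∫⁻ _ in K, gam n R d ∂μ :=
        setLIntegral_mono' hK fun z hz => gam_anti n R hd (h z hz)
    _ ≤ ∫⁻ _, gam n R d ∂μ := setLIntegral_le_lintegral _ _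
    _ = _ := lintegral_const _

omit [SecondCountableTopology E] in
/-- Crude maximum principle. -/
lemma pot_restrict_le (n : ℕ) {R : ℝ} (hR : 0 < R) (μ : Measure E) {K : Set E} (hK : IsCompact K)
    {k : ℝ≥0∞} (h : ∀ x ∈ K, pot n R μ x ≤ k) (y : E) :
    pot n R (μ.restrict K) y ≤ ENNReal.ofReal (2 ^ n) *
      (k + (∫⁻ s in Ioc R (2 * R), kf n s) * μ univ) := by
  rcases K.eq_empty_or_nonempty with rfl | hne
  · simp [pot]
  obtain ⟨x, hx, hxy⟩ := hK.exists_infDist_eq_dist hne y
  refine (pot_compare n hR (by norm_num : (1 : ℝ) ≤ 2) μ hK.measurableSet (x := x)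
    fun z hz => ?_).trans ?_
  · have h1 : dist y x ≤ dist y z := hxy ▸ infDist_le_dist_of_mem hz
    have h2 := dist_triangle_left z x y
    rw [← dist_eq_norm, ← dist_eq_norm, dist_comm z y]
    linarith
  · gcongr
    exact h x hx

variable [NormedSpace ℝ E] [FiniteDimensional ℝ E] (m : Measure E) [m.IsAddHaarMeasure]

omit [SecondCountableTopology E] in
lemma kf_mul_ball (y : E) {s : ℝ} (hs : 0 < s) :
    kf (Module.finrank ℝ E) s * m (closedBall y (2 * s))
      = ENNReal.ofReal (2 ^ Module.finrank ℝ E * s) * m (closedBall 0 1) := by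
  rw [Measure.addHaar_closedBall' m y (by positivity), ← mul_assoc, kf,
    ← ENNReal.ofReal_mul (by positivity)]
  congr 2
  rw [mul_pow]
  field_simp

lemma exists_pot_haar_le (R : ℝ) :
    ∃ C : ℝ≥0∞, C < ∞ ∧ ∀ y, pot (Module.finrank ℝ E) R m y ≤ C := by
  refine ⟨ENNReal.ofReal (2 ^ Module.finrank ℝ E * R) * m (closedBall 0 1) * volume (Ioc 0 R),
    ENNReal.mul_lt_top (ENNReal.mul_lt_top ENNReal.ofReal_lt_top measure_closedBall_lt_top)
      measure_Ioc_lt_top, fun y => ?_⟩
  rw [pot_eq, ← setLIntegral_const]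
  refine setLIntegral_mono' measurableSet_Ioc fun s hs => (slice_le _ m y hs.1).trans ?_
  rw [kf_mul_ball m y hs.1]
  gcongr
  exact hs.2

lemma lintegral_pot_lt_top (R : ℝ) (σ : Measure E) [IsFiniteMeasure σ] :
    ∫⁻ y, pot (Module.finrank ℝ E) R σ y ∂m < ∞ := by
  obtain ⟨C, hC, hC'⟩ := exists_pot_haar_le m R
  have h1 : ∫⁻ y, pot (Module.finrank ℝ E) R σ y ∂m
      = ∫⁻ z, pot (Module.finrank ℝ E) R m z ∂σ := by
    unfold pot
    rw [lintegral_lintegral_swap (Measurable.aemeasurable ?_)]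
    · simp only [norm_sub_rev]
    · unfold Function.uncurry
      fun_prop
  rw [h1]
  refine (lintegral_mono hC').trans_lt ?_
  rw [lintegral_const]
  exact ENNReal.mul_lt_top hC (measure_lt_top _ _)

lemma ae_pot_lt_top (R : ℝ) (σ : Measure E) [IsFiniteMeasure σ] :
    ∀ᵐ y ∂m, pot (Module.finrank ℝ E) R σ y < ∞ :=
  ae_lt_top (measurable_pot _ R σ) (lintegral_pot_lt_top m R σ).ne

end Pool.Agent.Lib.MP_8eef66_an
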