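import Mathlib
import Pool.Agent.Lib.MP_8eef66_an.Potential

/-!
At almost every point where the potential of `μ` is infinite, the set where the potential of an
absolutely continuous measure is comparable to that of `μ` has Lebesgue density zero.
-/

open MeasureTheory Set Filter Topology Metric
open scoped ENNReal

namespace Pool.Agent.Lib.MP_8eef66_an

set_option linter.unusedSectionVars false

variable {E : Type*} [NormedAddCommGroup E] [MeasurableSpace E] [BorelSpace E]
  [SecondCountableTopology E]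

/-- Lower comparison quantity at a point. -/
noncomputable def low (n : ℕ) (R : ℝ) (μ : Measure E) (x : E) (r : ℝ) : ℝ≥0∞ :=
  ∫⁻ s in Ioc (2 * r) R, kf n s * μ (closedBall x (s / 2))

lemma low_le_pot (n : ℕ) (R : ℝ) (μ : Measure E) [SFinite μ] {x y : E} {r : ℝ} (hr : 0 ≤ r)
    (hy : y ∈ closedBall x r) : low n R μ x r ≤ pot n R μ y := by
  rw [pot_eq]
  refine le_trans ?_ (lintegral_mono_set (Ioc_subset_Ioc_left (by linarith : (0 : ℝ) ≤ 2 * r)))
  refine setLIntegral_mono' measurableSet_Ioc fun s hs => ?_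
  refine le_trans ?_ (le_slice n μ y (by linarith [hs.1]))
  refine mul_le_mul_right (measure_mono (closedBall_subset_closedBall' ?_)) _
  rw [mem_closedBall, dist_comm] at hy
  linarith [hs.1]

lemma low_lt_top (n : ℕ) (R : ℝ) (μ : Measure E) [IsFiniteMeasure μ] (x : E) {r : ℝ}
    (hr : 0 < r) : low n R μ x r < ∞ := by
  calc low n R μ x r ≤ ∫⁻ s in Ioc (2 * r) R, kf n s * μ univ :=
        lintegral_mono fun s => mul_le_mul_right (measure_mono (subset_univ _)) _
    _ < ∞ := by
        rw [lintegral_mul_const _ (measurable_kf n)]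
        exact ENNReal.mul_lt_top (lintegral_kf_lt_top n (by positivity) R) (measure_lt_top _ _)

lemma low_anti (n : ℕ) (R : ℝ) (μ : Measure E) (x : E) {r r' : ℝ} (h : r ≤ r') :
    low n R μ x r' ≤ low n R μ x r :=
  lintegral_mono_set (Ioc_subset_Ioc_left (by linarith))

lemma low_zero_eq_top (n : ℕ) {R : ℝ} (hR : 0 < R) (μ : Measure E) [IsFiniteMeasure μ] {x : E}
    (hx : pot n R μ x = ∞) : low n R μ x 0 = ∞ := by
  by_contra hne
  refine absurd hx (ne_of_lt ?_)
  calc pot n R μ x ≤ ∫⁻ s in Ioc 0 R, kf n s * μ (closedBall x (2 * s)) := by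
        rw [pot_eq]
        exact setLIntegral_mono' measurableSet_Ioc fun s hs => slice_le n μ x hs.1
    _ ≤ ENNReal.ofReal (4 ^ n) *
          ∫⁻ s in Ioc (4 * 0) (4 * R), kf n s * μ (closedBall x (2 * (s / 4))) :=
        lintegral_kf_scale n (by norm_num) le_rfl R _
    _ ≤ ENNReal.ofReal (4 ^ n) * (low n R μ x 0 + ∫⁻ s in Ioc R (4 * R), kf n s * μ univ) := by
        refine mul_le_mul_right ?_ _
        rw [mul_zero, ← Ioc_union_Ioc_eq_Ioc hR.le (by linarith : R ≤ 4 * R)]
        refine (lintegral_union_le _ _ _).trans (add_le_add (le_of_eq ?_) ?_)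
        · rw [low, mul_zero]
          refine lintegral_congr fun s => ?_
          rw [show 2 * (s / 4) = s / 2 by ring]
        · exact lintegral_mono fun s => mul_le_mul_right (measure_mono (subset_univ _)) _
    _ < ∞ := by
        refine ENNReal.mul_lt_top ENNReal.ofReal_lt_top (ENNReal.add_lt_top.2 ⟨Ne.lt_top hne, ?_⟩)
        rw [lintegral_mul_const _ (measurable_kf n)]
        exact ENNReal.mul_lt_top (lintegral_kf_lt_top n hR _) (measure_lt_top _ _)

lemma eventually_le_low (n : ℕ) {R : ℝ} (hR : 0 < R) (μ : Measure E) [IsFiniteMeasure μ] {x : E}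
    (hx : pot n R μ x = ∞) {T : ℝ≥0∞} (hT : T ≠ ∞) :
    ∀ᶠ r in 𝓝[>] (0 : ℝ), T ≤ low n R μ x r := by
  have h0 := low_zero_eq_top n hR μ hx
  have hU : Ioc (2 * 0) R = ⋃ j : ℕ, Ioc (2 * (1 / ((j : ℝ) + 1))) R := by
    ext s
    simp only [mul_zero, mem_Ioc, mem_iUnion]
    constructor
    · rintro ⟨h1, h2⟩
      obtain ⟨j, hj⟩ := exists_nat_one_div_lt (half_pos h1)
      exact ⟨j, by linarith, h2⟩
    · rintro ⟨j, h1, h2⟩
      exact ⟨lt_trans (by positivity) h1, h2⟩
  rw [low, hU, setLIntegral_iUnion_of_directed] at h0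
  · obtain ⟨j, hj⟩ := lt_iSup_iff.1 (h0 ▸ hT.lt_top)
    filter_upwards [Ioo_mem_nhdsGT (show (0 : ℝ) < 1 / ((j : ℝ) + 1) by positivity)] with r hr
    exact hj.le.trans (low_anti n R μ x hr.2.le)
  · refine Monotone.directed_le fun i j hij => Ioc_subset_Ioc_left ?_
    have := Nat.one_div_le_one_div (α := ℝ) hij
    linarith

lemma upper_le_low (n : ℕ) {R t r : ℝ} (ht : 0 < t) (htR : 2 * t ≤ R) (hr : 0 ≤ r)
    (μ σ : Measure E) (x : E) {δ : ℝ≥0∞} (hδ : δ ≠ ∞)
    (h : ∀ s ∈ Ioc 0 t, σ (closedBall x s) ≤ δ * μ (closedBall x s)) :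
    ∫⁻ s in Ioc r R, kf n s * σ (closedBall x (3 * s)) ≤
      δ * ENNReal.ofReal (6 ^ n) * low n R μ x r + (∫⁻ s in Ioc (t / 3) R, kf n s) * σ univ := by
  refine (lintegral_mono_set (Ioc_subset_Ioc_union_Ioc (b := t / 3))).trans
    ((lintegral_union_le _ _ _).trans (add_le_add ?_ ?_))
  · calc ∫⁻ s in Ioc r (t / 3), kf n s * σ (closedBall x (3 * s))
        ≤ ∫⁻ s in Ioc r (t / 3), δ * (kf n s * μ (closedBall x (3 * s))) := by
          refine setLIntegral_mono' measurableSet_Ioc fun s hs => ?_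
          rw [mul_left_comm]
          exact mul_le_mul_right (h _ ⟨by linarith [hs.1], by linarith [hs.2]⟩) _
      _ = δ * ∫⁻ s in Ioc r (t / 3), kf n s * μ (closedBall x (3 * s)) :=
          lintegral_const_mul' _ _ hδ
      _ ≤ δ * (ENNReal.ofReal (6 ^ n) *
            ∫⁻ s in Ioc (6 * r) (6 * (t / 3)), kf n s * μ (closedBall x (3 * (s / 6)))) :=
          mul_le_mul_right (lintegral_kf_scale n (by norm_num) hr _ _) _
      _ ≤ δ * ENNReal.ofReal (6 ^ n) * low n R μ x r := by
          rw [mul_assoc]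
          refine mul_le_mul_right (mul_le_mul_right ?_ _) _
          refine (lintegral_mono_set (Ioc_subset_Ioc (by linarith : 2 * r ≤ 6 * r)
            (by linarith : 6 * (t / 3) ≤ R))).trans (le_of_eq ?_)
          refine lintegral_congr fun s => ?_
          rw [show 3 * (s / 6) = s / 2 by ring]
  · rw [← lintegral_mul_const _ (measurable_kf n)]
    exact lintegral_mono fun s => mul_le_mul_right (measure_mono (subset_univ _)) _

variable [NormedSpace ℝ E] [FiniteDimensional ℝ E] (m : Measure E) [m.IsAddHaarMeasure]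

lemma setLIntegral_pot_le {R r : ℝ} (hr : 0 < r) (hrR : 2 * r ≤ R) (σ : Measure E) [SFinite σ]
    (x : E) :
    ∫⁻ y in closedBall x r, pot (Module.finrank ℝ E) R σ y ∂m ≤
      m (closedBall x r) * (1 + ENNReal.ofReal (4 ^ Module.finrank ℝ E)) *
        ∫⁻ s in Ioc r R, kf (Module.finrank ℝ E) s * σ (closedBall x (3 * s)) := by
  set n := Module.finrank ℝ E
  set J := ∫⁻ s in Ioc r R, kf n s * σ (closedBall x (3 * s))
  set ω := m (closedBall (0 : E) 1)
  have hswap : ∫⁻ y in closedBall x r, pot n R σ y ∂m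
      = ∫⁻ s in Ioc 0 R, ∫⁻ y in closedBall x r, slice n σ y s ∂m := by
    simp only [pot_eq]
    exact lintegral_lintegral_swap (measurable_slice n σ).aemeasurable
  have hsmall : ∀ s ∈ Ioc 0 r, ∫⁻ y in closedBall x r, slice n σ y s ∂m ≤
      ENNReal.ofReal (2 ^ n * r) * ω * σ (closedBall x (3 * r)) := by
    intro s hs
    unfold slice
    rw [lintegral_lintegral_swap (Measurable.aemeasurable (by unfold Function.uncurry; fun_prop)),
      ← lintegral_indicator_const measurableSet_closedBall]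
    refine lintegral_mono fun z => ?_
    by_cases hz : z ∈ closedBall x (3 * r)
    · rw [indicator_of_mem hz]
      refine (setLIntegral_le_lintegral _ _).trans ?_
      simp only [norm_sub_rev z]
      refine (slice_le n m z hs.1).trans ?_
      rw [kf_mul_ball m z hs.1]
      have := hs.2
      gcongr
    · rw [indicator_of_notMem hz, setLIntegral_congr_fun measurableSet_closedBall (g := fun _ => 0),
        lintegral_zero]
      intro y hy
      rw [mem_closedBall, not_le] at hz
      rw [mem_closedBall] at hy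
      have h1 := dist_triangle z y x
      have h2 : 2 * s ≤ ‖z - y‖ := by
        rw [← dist_eq_norm]
        linarith [hs.2]
      simp [eta_eq_zero n hs.1 h2]
  have hlarge : ∀ s ∈ Ioc r R, ∫⁻ y in closedBall x r, slice n σ y s ∂m ≤
      m (closedBall x r) * (kf n s * σ (closedBall x (3 * s))) := by
    intro s hs
    rw [mul_comm, ← setLIntegral_const]
    refine setLIntegral_mono' measurableSet_closedBall fun y hy => ?_
    refine (slice_le n σ y (hr.trans hs.1)).trans ?_
    refine mul_le_mul_right (measure_mono (closedBall_subset_closedBall' ?_)) _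
    rw [mem_closedBall] at hy
    linarith [hs.1]
  have hJ : ENNReal.ofReal (r / (2 * r) ^ n) * σ (closedBall x (3 * r)) * ENNReal.ofReal r
      ≤ J := by
    refine le_trans ?_ (lintegral_mono_set (Ioc_subset_Ioc_right hrR))
    rw [show ENNReal.ofReal r = volume (Ioc r (2 * r)) by rw [Real.volume_Ioc]; congr 1; ring,
      ← setLIntegral_const]
    refine setLIntegral_mono' measurableSet_Ioc fun s hs => mul_le_mul' ?_ ?_
    · refine ENNReal.ofReal_le_ofReal ?_
      have h1 : 0 < s := hr.trans hs.1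
      exact div_le_div₀ h1.le hs.1.le (by positivity) (pow_le_pow_left₀ h1.le hs.2 n)
    · exact measure_mono (closedBall_subset_closedBall (by linarith [hs.1]))
  have hB : m (closedBall x r) = ENNReal.ofReal (r ^ n) * ω :=
    Measure.addHaar_closedBall' m x hr.le
  have hkey : ENNReal.ofReal (2 ^ n * r) * ω * σ (closedBall x (3 * r)) * ENNReal.ofReal r
      ≤ m (closedBall x r) * ENNReal.ofReal (4 ^ n) * J := by
    refine le_trans (le_of_eq ?_) (mul_le_mul_right hJ _)
    have h1 : ENNReal.ofReal (2 ^ n * r)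
        = ENNReal.ofReal (r ^ n) * ENNReal.ofReal (4 ^ n) * ENNReal.ofReal (r / (2 * r) ^ n) := by
      rw [← ENNReal.ofReal_mul (by positivity), ← ENNReal.ofReal_mul (by positivity)]
      congr 1
      rw [mul_pow, show (4 : ℝ) = 2 * 2 by norm_num, mul_pow]
      field_simp
    rw [hB, h1]
    ring
  rw [hswap, ← Ioc_union_Ioc_eq_Ioc hr.le (by linarith : r ≤ R)]
  refine (lintegral_union_le _ _ _).trans ?_
  rw [mul_add, mul_one, add_mul, add_comm (m (closedBall x r) * J)]
  refine add_le_add ?_ ?_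
  · refine (setLIntegral_mono' measurableSet_Ioc hsmall).trans ?_
    rw [setLIntegral_const, Real.volume_Ioc, sub_zero]
    exact hkey
  · refine (setLIntegral_mono' measurableSet_Ioc hlarge).trans (le_of_eq ?_)
    exact lintegral_const_mul' _ _ measure_closedBall_lt_top.ne

lemma density_at {R : ℝ} (hR : 0 < R) (μ σ : Measure E) [IsFiniteMeasure μ] [IsFiniteMeasure σ]
    {x : E} (hx : pot (Module.finrank ℝ E) R μ x = ∞)
    (hd : Tendsto (fun r => σ (closedBall x r) / μ (closedBall x r)) (𝓝[>] 0) (𝓝 0))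
    {κ L θ : ℝ≥0∞} (hκ : κ ≠ ∞) (hL : L ≠ ∞) (hθ : θ ≠ 0) :
    ∀ᶠ r in 𝓝[>] (0 : ℝ),
      m ({y | pot (Module.finrank ℝ E) R μ y ≤ κ * pot (Module.finrank ℝ E) R σ y + L}
        ∩ closedBall x r) ≤ θ * m (closedBall x r) := by
  set n := Module.finrank ℝ E
  set A := 1 + ENNReal.ofReal (4 ^ n) with hA
  have hAt : A ≠ ∞ := by simp [hA]
  set Q := κ * A * ENNReal.ofReal (6 ^ n) with hQ
  have hQt : Q ≠ ∞ := ENNReal.mul_ne_top (ENNReal.mul_ne_top hκ hAt) ENNReal.ofReal_ne_top
  have hθ2 : θ / 2 ≠ 0 := (ENNReal.half_pos hθ).ne'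
  obtain ⟨δ, hδ0, hδ⟩ := ENNReal.exists_nnreal_pos_mul_lt hQt hθ2
  have hδ' : (0 : ℝ≥0∞) < δ := by exact_mod_cast hδ0
  have h1 : ∀ᶠ r in 𝓝[>] (0 : ℝ), σ (closedBall x r) ≤ δ * μ (closedBall x r) := by
    filter_upwards [hd.eventually (gt_mem_nhds hδ')] with r hr
    exact (ENNReal.div_le_iff_le_mul (Or.inr ENNReal.coe_ne_top) (Or.inr hδ'.ne')).1 hr.le
  obtain ⟨t₁, ht₁, ht₁'⟩ := (nhdsGT_basis_Ioc (0 : ℝ)).eventually_iff.1 h1
  set t := min t₁ (R / 2)
  have ht : 0 < t := lt_min ht₁ (half_pos hR)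
  have htR : 2 * t ≤ R := by linarith [min_le_right t₁ (R / 2)]
  have hts : ∀ s ∈ Ioc 0 t, σ (closedBall x s) ≤ δ * μ (closedBall x s) := fun s hs =>
    ht₁' ⟨hs.1, hs.2.trans (min_le_left _ _)⟩
  set D := (∫⁻ s in Ioc (t / 3) R, kf n s) * σ univ with hD
  have hDt : D ≠ ∞ :=
    ENNReal.mul_ne_top (lintegral_kf_lt_top n (by positivity) R).ne (measure_ne_top _ _)
  set T := κ * A * D + L with hT
  have hTt : T ≠ ∞ :=
    ENNReal.add_ne_top.2 ⟨ENNReal.mul_ne_top (ENNReal.mul_ne_top hκ hAt) hDt, hL⟩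
  have hT' : T / (θ / 2) + 1 ≠ ∞ :=
    ENNReal.add_ne_top.2 ⟨ENNReal.div_ne_top hTt hθ2, ENNReal.one_ne_top⟩
  filter_upwards [eventually_le_low n hR μ hx hT', Ioc_mem_nhdsGT (half_pos hR)] with r hlow hr
  set I := low n R μ x r
  have hI0 : I ≠ 0 := (lt_of_lt_of_le (lt_of_lt_of_le one_pos le_add_self) hlow).ne'
  have hIt : I ≠ ∞ := (low_lt_top n R μ x hr.1).ne
  have hTI : T ≤ θ / 2 * I := by
    have h2 : T / (θ / 2) ≤ I := le_self_add.trans hlow
    rw [mul_comm]
    exact (ENNReal.div_le_iff_le_mul (Or.inl hθ2) (Or.inr hI0)).1 h2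
  set S := {y | pot n R μ y ≤ κ * pot n R σ y + L}
  have hSm : MeasurableSet S :=
    measurableSet_le (measurable_pot n R μ) (((measurable_pot n R σ).const_mul κ).add_const L)
  have h3 : I * m (S ∩ closedBall x r) ≤ ∫⁻ y in closedBall x r, (κ * pot n R σ y + L) ∂m := by
    rw [← setLIntegral_const]
    refine le_trans ?_ (lintegral_mono_set (inter_subset_right (s := S)))
    refine setLIntegral_mono' (hSm.inter measurableSet_closedBall) fun y hy => ?_
    exact (low_le_pot n R μ hr.1.le hy.2).trans hy.1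
  rw [lintegral_add_right _ measurable_const, lintegral_const_mul' _ _ hκ,
    setLIntegral_const] at h3
  have h4 := setLIntegral_pot_le m hr.1 (by linarith [hr.2] : 2 * r ≤ R) σ x
  have h5 := upper_le_low n ht htR hr.1.le μ σ x ENNReal.coe_ne_top hts
  have h6 : I * m (S ∩ closedBall x r) ≤ I * (θ * m (closedBall x r)) := by
    calc I * m (S ∩ closedBall x r)
        ≤ κ * (m (closedBall x r) * A * (δ * ENNReal.ofReal (6 ^ n) * I + D))
            + L * m (closedBall x r) := by
          refine h3.trans (add_le_add (mul_le_mul_right (h4.trans ?_) _) le_rfl)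
          exact mul_le_mul_right h5 _
      _ = (δ * Q * I + T) * m (closedBall x r) := by
          rw [hQ, hT]
          ring
      _ ≤ (θ / 2 * I + θ / 2 * I) * m (closedBall x r) := by
          gcongr
      _ = I * (θ * m (closedBall x r)) := by
          rw [← add_mul, ENNReal.add_halves]
          ring
  exact (ENNReal.mul_le_mul_iff_right hI0 hIt).1 h6

theorem ae_density {R : ℝ} (hR : 0 < R) (μ σ : Measure E) [IsFiniteMeasure μ] [IsFiniteMeasure σ]
    (hσ : σ ≪ m) {κ L θ : ℝ≥0∞} (hκ : κ ≠ ∞) (hL : L ≠ ∞) (hθ : θ ≠ 0) :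
    ∀ᵐ x ∂μ, pot (Module.finrank ℝ E) R μ x = ∞ → ∀ᶠ r in 𝓝[>] (0 : ℝ),
      m ({y | pot (Module.finrank ℝ E) R μ y ≤ κ * pot (Module.finrank ℝ E) R σ y + L}
        ∩ closedBall x r) ≤ θ * m (closedBall x r) := by
  set P := {x | pot (Module.finrank ℝ E) R μ x = ∞}
  have hPm : MeasurableSet P := measurable_pot _ R μ (measurableSet_singleton ∞)
  have hP0 : m P = 0 := by
    have := ae_pot_lt_top m R μ
    rw [ae_iff] at this
    simpa [P] using this
  have h1 : ∫⁻ x in P, σ.rnDeriv μ x ∂μ = 0 :=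
    le_antisymm ((Measure.setLIntegral_rnDeriv_le P).trans (hσ hP0).le) zero_le
  rw [lintegral_eq_zero_iff (Measure.measurable_rnDeriv σ μ), Filter.EventuallyEq,
    ae_restrict_iff' hPm] at h1
  filter_upwards [h1, Besicovitch.ae_tendsto_rnDeriv σ μ] with x hx hx' hP
  rw [hx hP] at hx'
  exact density_at m hR μ σ hP hx' hκ hL hθ

end Pool.Agent.Lib.MP_8eef66_an
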