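import Mathlib
import Pool.Agent.Lib.MP_8eef66_an.Green

/-!
A wide class of test functions and the one-sided estimate of the positive part of a test
function by the total mass of its Laplacian.
-/

open MeasureTheory Set Filter Topology
open scoped Laplacian ENNReal RealInnerProductSpace

namespace Pool.Agent.Lib.MP_8eef66_an

variable {E : Type*} [NormedAddCommGroup E] [InnerProductSpace ℝ E] [FiniteDimensional ℝ E]

/-- Wide class of test functions. -/
structure IsWTest (Ω : Set E) (ζ : E → ℝ) : Prop where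
  cont : ContinuousOn ζ (closure Ω)
  smooth : ∀ x ∈ Ω, ContDiffAt ℝ 2 ζ x
  bdry : ∀ x ∈ frontier Ω, ζ x = 0
  bdd : ∃ C, ∀ x ∈ Ω, |Δ ζ x| ≤ C

lemma IsWTest.zero (Ω : Set E) : IsWTest Ω (0 : E → ℝ) where
  cont := continuousOn_const
  smooth := fun _ _ => contDiffAt_const
  bdry := fun _ _ => rfl
  bdd := ⟨0, fun x _ => by
    have : Δ (0 : E → ℝ) x = 0 := laplacian_eq_zero_of_notMem (by simp)
    simp [this]⟩

lemma IsWTest.add {Ω : Set E} {a b : E → ℝ} (ha : IsWTest Ω a) (hb : IsWTest Ω b) :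
    IsWTest Ω (a + b) where
  cont := ha.cont.add hb.cont
  smooth := fun x hx => (ha.smooth x hx).add (hb.smooth x hx)
  bdry := fun x hx => by simp [ha.bdry x hx, hb.bdry x hx]
  bdd := by
    obtain ⟨C, hC⟩ := ha.bdd
    obtain ⟨D, hD⟩ := hb.bdd
    refine ⟨C + D, fun x hx => ?_⟩
    rw [(ha.smooth x hx).laplacian_add (hb.smooth x hx)]
    exact (abs_add_le _ _).trans (add_le_add (hC x hx) (hD x hx))

lemma IsWTest.smul {Ω : Set E} {a : E → ℝ} (c : ℝ) (ha : IsWTest Ω a) :
    IsWTest Ω (c • a) where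
  cont := ha.cont.const_smul c
  smooth := fun x hx => (ha.smooth x hx).const_smul c
  bdry := fun x hx => by simp [ha.bdry x hx]
  bdd := by
    obtain ⟨C, hC⟩ := ha.bdd
    refine ⟨|c| * C, fun x hx => ?_⟩
    rw [InnerProductSpace.laplacian_smul c (ha.smooth x hx), smul_eq_mul, abs_mul]
    exact mul_le_mul_of_nonneg_left (hC x hx) (abs_nonneg c)

lemma IsWTest.continuousOn_laplacian {Ω : Set E} {ζ : E → ℝ} (h : IsWTest Ω ζ) :
    ContinuousOn (Δ ζ) Ω := fun x hx =>
  (continuousAt_laplacian (h.smooth x hx)).continuousWithinAt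

lemma exists_convex_cutoff {δ : ℝ} (hδ : 0 < δ) :
    ∃ Φ : ℝ → ℝ, ContDiff ℝ 2 Φ ∧ (∀ t ≤ δ, Φ t = 0) ∧ (∀ t, max t 0 - 2 * δ ≤ Φ t) ∧
      (∀ t, 0 ≤ deriv Φ t ∧ deriv Φ t ≤ 1) ∧ ∀ t, 0 ≤ deriv (deriv Φ) t := by
  set T : ℝ → ℝ := fun s => Real.smoothTransition ((s - δ) / δ) with hT
  have hTs : ContDiff ℝ 1 T := Real.smoothTransition.contDiff.comp
    ((contDiff_id.sub contDiff_const).div_const δ)
  have hTc : Continuous T := hTs.continuous
  have hT0 : ∀ s, 0 ≤ T s := fun s => Real.smoothTransition.nonneg _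
  have hT1 : ∀ s, T s ≤ 1 := fun s => Real.smoothTransition.le_one _
  have hTm : Monotone T := fun s t hst =>
    Real.smoothTransition.monotone (div_le_div_of_nonneg_right (by linarith) hδ.le)
  set Φ : ℝ → ℝ := fun t => ∫ s in (0 : ℝ)..t, T s with hΦ
  have hd : ∀ t, HasDerivAt Φ (T t) t := fun t => (hTc.integral_hasStrictDerivAt 0 t).hasDerivAt
  have hder : deriv Φ = T := funext fun t => (hd t).deriv
  have hz : ∀ t ≤ δ, Φ t = 0 := by
    intro t ht
    have : ∀ s ∈ uIcc 0 t, T s = 0 := by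
      intro s hs
      have : s ≤ δ := by
        rcases mem_uIcc.1 hs with h | h <;> linarith [h.1, h.2]
      exact Real.smoothTransition.zero_of_nonpos
        (div_nonpos_of_nonpos_of_nonneg (by linarith) hδ.le)
    show ∫ s in (0 : ℝ)..t, T s = 0
    rw [intervalIntegral.integral_congr (g := fun _ => 0) this]
    simp
  have hnn : ∀ t, 0 ≤ Φ t := by
    intro t
    rcases le_total t 0 with h | h
    · rw [hz t (by linarith)]
    · exact intervalIntegral.integral_nonneg h fun s _ => hT0 s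
  refine ⟨Φ, ?_, hz, ?_, ?_, ?_⟩
  · rw [show (2 : WithTop ℕ∞) = 1 + 1 from rfl, contDiff_succ_iff_deriv]
    exact ⟨fun t => (hd t).differentiableAt, by simp, hder ▸ hTs⟩
  · intro t
    rcases le_total t (2 * δ) with h | h
    · have : max t 0 ≤ 2 * δ := max_le h (by linarith)
      linarith [hnn t]
    · have h1 : Φ t = Φ (2 * δ) + ∫ s in (2 * δ)..t, T s := by
        show ∫ s in (0 : ℝ)..t, T s = (∫ s in (0 : ℝ)..(2 * δ), T s) + ∫ s in (2 * δ)..t, T s
        rw [intervalIntegral.integral_add_adjacent_intervals (hTc.intervalIntegrable _ _)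
          (hTc.intervalIntegrable _ _)]
      have h2 : ∫ s in (2 * δ)..t, T s = t - 2 * δ := by
        rw [intervalIntegral.integral_congr (g := fun _ => 1)]
        · simp
        · intro s hs
          rw [uIcc_of_le h] at hs
          refine Real.smoothTransition.one_of_one_le ?_
          rw [le_div_iff₀ hδ]
          linarith [hs.1]
      rw [max_eq_left (by linarith), h1, h2]
      linarith [hnn (2 * δ)]
  · intro t
    rw [hder]
    exact ⟨hT0 t, hT1 t⟩
  · intro t
    rw [hder]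
    exact hTm.deriv_nonneg

variable [MeasurableSpace E] [BorelSpace E] {m : Measure E} [m.IsAddHaarMeasure]

lemma IsWTest.integrableOn_laplacian {Ω : Set E} (hΩ : IsOpen Ω) (hb : Bornology.IsBounded Ω)
    {ζ : E → ℝ} (h : IsWTest Ω ζ) : IntegrableOn (Δ ζ) Ω m := by
  obtain ⟨C, hC⟩ := h.bdd
  refine IntegrableOn.of_bound hb.measure_lt_top ?_ C ?_
  · exact h.continuousOn_laplacian.aestronglyMeasurable hΩ.measurableSet
  · exact (ae_restrict_iff' hΩ.measurableSet).2 (Eventually.of_forall fun x hx => hC x hx)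

lemma IsWTest.integrableOn {Ω : Set E} (hb : Bornology.IsBounded Ω)
    {ζ : E → ℝ} (h : IsWTest Ω ζ) {μ : Measure E} [IsFiniteMeasureOnCompacts μ] :
    IntegrableOn ζ Ω μ :=
  (h.cont.integrableOn_compact hb.isCompact_closure).mono_set subset_closure

/-- One-sided estimate. -/
lemma kato [Nontrivial E] {Ω : Set E} (hΩ : IsOpen Ω) (hb : Bornology.IsBounded Ω) :
    ∃ C : ℝ, 0 ≤ C ∧ ∀ ζ, IsWTest Ω ζ →
      ∫ x in Ω, max (ζ x) 0 ∂m ≤ C * ∫ x in Ω, |Δ ζ x| ∂m := by
  obtain ⟨ρ, hρ⟩ := hb.subset_closedBall (0 : E)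
  have hN : (0 : ℝ) < Module.finrank ℝ E := by exact_mod_cast Module.finrank_pos
  refine ⟨ρ ^ 2 / (2 * Module.finrank ℝ E), by positivity, fun ζ hζ => ?_⟩
  have hfin : m Ω ≠ ∞ := hb.measure_lt_top.ne
  have key : ∀ δ : ℝ, 0 < δ → ∫ x in Ω, max (ζ x) 0 ∂m ≤
      ρ ^ 2 / (2 * Module.finrank ℝ E) * ∫ x in Ω, |Δ ζ x| ∂m + 2 * δ * m.real Ω := by
    intro δ hδ
    obtain ⟨Φ, hΦ, hz, hlow, hd1, hd2⟩ := exists_convex_cutoff hδ
    set K : Set E := closure Ω ∩ ζ ⁻¹' Ici δ with hK
    have hKc : IsClosed K := hζ.cont.preimage_isClosed_of_isClosed isClosed_closure isClosed_Ici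
    have hKcomp : IsCompact K := hb.isCompact_closure.of_isClosed_subset hKc inter_subset_left
    have hKΩ : K ⊆ Ω := by
      rintro x ⟨hx1, hx2⟩
      by_contra hx
      have : ζ x = 0 := hζ.bdry x (by rw [hΩ.frontier_eq]; exact ⟨hx1, hx⟩)
      simp only [mem_preimage, mem_Ici] at hx2
      linarith
    set a : E → ℝ := Ω.indicator fun x => Φ (ζ x) with ha
    have hsupp : tsupport a ⊆ K := by
      refine closure_minimal (fun x hx => ?_) hKc
      by_cases hxΩ : x ∈ Ω
      · refine ⟨subset_closure hxΩ, ?_⟩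
        by_contra hlt
        simp only [mem_preimage, mem_Ici, not_le] at hlt
        exact hx (by simp [ha, hxΩ, hz _ hlt.le])
      · exact absurd (by simp [ha, hxΩ]) hx
    have haeq : ∀ x ∈ Ω, a =ᶠ[𝓝 x] fun y => Φ (ζ y) := fun x hx => by
      filter_upwards [hΩ.mem_nhds hx] with y hy
      simp [ha, hy]
    have hsm : ContDiff ℝ 2 a := by
      refine contDiff_iff_contDiffAt.2 fun x => ?_
      by_cases hx : x ∈ Ω
      · exact (hΦ.contDiffAt.comp x (hζ.smooth x hx)).congr_of_eventuallyEq (haeq x hx)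
      · have : x ∉ tsupport a := fun h => hx (hKΩ (hsupp h))
        exact contDiffAt_const.congr_of_eventuallyEq (notMem_tsupport_iff_eventuallyEq.mp this)
    have hcs : HasCompactSupport a := hKcomp.of_isClosed_subset (isClosed_tsupport _) hsupp
    set ψ : E → ℝ := fun x => ρ ^ 2 - ‖x - 0‖ ^ 2 with hψ
    have hψs : ContDiff ℝ 2 ψ := contDiff_const.sub (contDiff_normSq 0)
    have hψL : ∀ x, Δ ψ x = -(2 * (Module.finrank ℝ E : ℝ)) := by
      intro x
      have h1 := ContDiffAt.laplacian_sub (f₁ := fun _ : E => ρ ^ 2)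
        (f₂ := fun x : E => ‖x - 0‖ ^ 2) (x := x) contDiffAt_const (contDiff_normSq 0).contDiffAt
      have h2 : ψ = (fun _ : E => ρ ^ 2) - fun x : E => ‖x - 0‖ ^ 2 := rfl
      rw [h2, h1, laplacian_normSq]
      simp
    have hG := green (m := m) hsm hcs (b := ψ) fun x _ => hψs.contDiffAt
    simp only [hψL] at hG
    rw [integral_mul_const] at hG
    have hLc : Continuous (Δ a) :=
      continuous_iff_continuousAt.2 fun x => continuousAt_laplacian hsm.contDiffAt
    have hLs : tsupport (Δ a) ⊆ K := by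
      refine closure_minimal (fun x hx => ?_) hKc
      by_contra h
      exact hx (laplacian_eq_zero_of_notMem fun h' => h (hsupp h'))
    have hi1 : Integrable (fun x => Δ a x * ψ x) m :=
      integrable_mul_of_support hKcomp hLc hLs fun x _ => hψs.continuous.continuousAt
    have hi2 : IntegrableOn (fun x => |Δ ζ x|) Ω m := (hζ.integrableOn_laplacian hΩ hb).abs
    have hpt : ∀ x, Ω.indicator (fun x => -(ρ ^ 2) * |Δ ζ x|) x ≤ Δ a x * ψ x := by
      intro x
      by_cases hx : x ∈ Ω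
      · rw [indicator_of_mem hx, (InnerProductSpace.laplacian_congr_nhds (haeq x hx)).self_of_nhds,
          laplacian_comp hΦ (hζ.smooth x hx)]
        have hxn : ‖x‖ ≤ ρ := by simpa using hρ hx
        have hψ0 : 0 ≤ ψ x := by
          simp only [hψ, sub_zero]
          nlinarith [norm_nonneg x]
        have hψ1 : ψ x ≤ ρ ^ 2 := by
          simp only [hψ, sub_zero]
          nlinarith [norm_nonneg x]
        have h1 : -|Δ ζ x| ≤ deriv Φ (ζ x) * Δ ζ x := by
          have := hd1 (ζ x)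
          nlinarith [neg_abs_le (Δ ζ x), abs_nonneg (Δ ζ x)]
        have h2 : 0 ≤ deriv (deriv Φ) (ζ x) * ∑ i, dir (stdOrthonormalBasis ℝ E i) ζ x ^ 2 :=
          mul_nonneg (hd2 _) (Finset.sum_nonneg fun i _ => sq_nonneg _)
        nlinarith [abs_nonneg (Δ ζ x)]
      · have : x ∉ tsupport a := fun h => hx (hKΩ (hsupp h))
        rw [indicator_of_notMem hx, laplacian_eq_zero_of_notMem this, zero_mul]
    have h3 : -(ρ ^ 2) * ∫ x in Ω, |Δ ζ x| ∂m ≤ ∫ x, Δ a x * ψ x ∂m := by
      rw [← integral_const_mul, ← integral_indicator hΩ.measurableSet]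
      exact integral_mono ((integrable_indicator_iff hΩ.measurableSet).2 (hi2.const_mul _)) hi1 hpt
    have h4 : ∫ x, a x ∂m = ∫ x in Ω, Φ (ζ x) ∂m := integral_indicator hΩ.measurableSet
    have hi3 : IntegrableOn (fun x => Φ (ζ x)) Ω m :=
      (integrable_indicator_iff hΩ.measurableSet).1 (hsm.continuous.integrable_of_hasCompactSupport hcs)
    have hi4 : IntegrableOn (fun x => max (ζ x) 0) Ω m := (hζ.integrableOn hb).pos_part
    have h5 : ∫ x in Ω, max (ζ x) 0 ∂m ≤ ∫ x in Ω, (Φ (ζ x) + 2 * δ) ∂m :=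
      integral_mono hi4 (hi3.add (integrableOn_const hfin)) fun x => by
        have := hlow (ζ x)
        simp only
        linarith
    rw [integral_add hi3 (integrableOn_const hfin), setIntegral_const, smul_eq_mul, ← h4] at h5
    have h6 : ∫ x, a x ∂m ≤ ρ ^ 2 / (2 * Module.finrank ℝ E) * ∫ x in Ω, |Δ ζ x| ∂m := by
      rw [div_mul_eq_mul_div, le_div_iff₀ (by positivity)]
      linarith
    linarith
  refine le_of_forall_pos_le_add fun ε hε => ?_
  have hm : 0 ≤ m.real Ω := measureReal_nonneg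
  have := key (ε / (2 * (m.real Ω + 1))) (by positivity)
  have h2 : 2 * (ε / (2 * (m.real Ω + 1))) * m.real Ω ≤ ε := by
    rw [show 2 * (ε / (2 * (m.real Ω + 1))) * m.real Ω = ε * (m.real Ω / (m.real Ω + 1)) by
      field_simp]
    exact mul_le_of_le_one_right hε.le ((div_le_one (by positivity)).2 (by linarith))
  linarith

end Pool.Agent.Lib.MP_8eef66_an
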