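import Mathlib
import Pool.Agent.Lib.MP_8eef66_an.Kato

/-!
Bounded weak solutions of the linear Dirichlet problem with bounded nonnegative data, by duality.
-/

open MeasureTheory Set Filter Topology
open scoped Laplacian ENNReal RealInnerProductSpace

namespace Pool.Agent.Lib.MP_8eef66_an

lemma exists_factor_le {V W : Type*} [AddCommGroup V] [Module ℝ V] [AddCommGroup W] [Module ℝ W]
    (L : V →ₗ[ℝ] W) (l : V →ₗ[ℝ] ℝ) (p : W → ℝ)
    (p_hom : ∀ c : ℝ, 0 < c → ∀ x, p (c • x) = c * p x) (p_add : ∀ x y, p (x + y) ≤ p x + p y)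
    (h : ∀ v, l v ≤ p (L v)) :
    ∃ G : W →ₗ[ℝ] ℝ, (∀ v, G (L v) = l v) ∧ ∀ w, G w ≤ p w := by
  have p0 : p 0 = 0 := by
    have := p_hom 2 (by norm_num) 0
    rw [smul_zero] at this
    linarith
  have hker : LinearMap.ker L ≤ LinearMap.ker l := by
    intro v hv
    rw [LinearMap.mem_ker] at hv ⊢
    have h1 := h v
    have h2 := h (-v)
    rw [map_neg, map_neg, hv, neg_zero, p0] at h2
    rw [hv, p0] at h1
    linarith
  let f : W →ₗ.[ℝ] ℝ :=
    { domain := LinearMap.range L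
      toFun := ((LinearMap.ker L).liftQ l hker).comp L.quotKerEquivRange.symm.toLinearMap }
  have hf : ∀ v (hv : L v ∈ LinearMap.range L), f ⟨L v, hv⟩ = l v := by
    intro v hv
    show ((LinearMap.ker L).liftQ l hker) (L.quotKerEquivRange.symm ⟨L v, hv⟩) = l v
    rw [LinearMap.quotKerEquivRange_symm_apply_image]
    rfl
  obtain ⟨G, hG1, hG2⟩ := exists_extension_of_le_sublinear f p p_hom p_add (by
    rintro ⟨x, v, rfl⟩
    exact (hf v _).trans_le (h v))
  exact ⟨G, fun v => (hG1 ⟨L v, ⟨v, rfl⟩⟩).trans (hf v _), hG2⟩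

lemma exists_bounded_repr {α : Type*} [MeasurableSpace α] (μ : Measure α) [IsFiniteMeasure μ]
    (G : Lp ℝ 2 μ →ₗ[ℝ] ℝ) {M : ℝ} (hM : 0 ≤ M) (hG : ∀ h, G h ≤ M * ∫ x, |h x| ∂μ) :
    ∃ w : α → ℝ, Measurable w ∧ (∀ x, |w x| ≤ M) ∧ ∀ h, G h = ∫ x, w x * h x ∂μ := by
  set one : Lp ℝ 2 μ := indicatorConstLp 2 MeasurableSet.univ (measure_ne_top μ _) (1 : ℝ)
  have hb : ∀ h : Lp ℝ 2 μ, ∫ x, |h x| ∂μ ≤ ‖one‖ * ‖h‖ := by
    intro h
    have h1 : ∫ x, |h x| ∂μ = ⟪one, |h|⟫ := by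
      rw [L2.inner_indicatorConstLp_one, setIntegral_univ]
      exact (integral_congr_ae (Lp.coeFn_abs h)).symm
    rw [h1, ← norm_abs_eq_norm h]
    exact real_inner_le_norm _ _
  have hneg : ∀ h : Lp ℝ 2 μ, ∫ x, |(-h) x| ∂μ = ∫ x, |h x| ∂μ := fun h =>
    integral_congr_ae (by filter_upwards [Lp.coeFn_neg h] with x hx; rw [hx, Pi.neg_apply, abs_neg])
  have habs : ∀ h : Lp ℝ 2 μ, |G h| ≤ M * ∫ x, |h x| ∂μ := by
    intro h
    have h1 := hG (-h)
    rw [map_neg, hneg] at h1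
    exact abs_le.2 ⟨by linarith, hG h⟩
  let G' : Lp ℝ 2 μ →L[ℝ] ℝ := G.mkContinuous (M * ‖one‖) fun h => by
    rw [Real.norm_eq_abs, mul_assoc]
    exact (habs h).trans (mul_le_mul_of_nonneg_left (hb h) hM)
  set w₀ : Lp ℝ 2 μ := (InnerProductSpace.toDual ℝ (Lp ℝ 2 μ)).symm G'
  have hw : ∀ h, G h = ∫ x, w₀ x * h x ∂μ := by
    intro h
    have : G h = ⟪w₀, h⟫ := (InnerProductSpace.toDual_symm_apply (𝕜 := ℝ) (y := G') (x := h)).symm
    rw [this, L2.inner_def]
    simp [mul_comm]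
  have hint : Integrable w₀ μ := (Lp.memLp w₀).integrable (by norm_num)
  have hS : ∀ s, MeasurableSet s → |∫ x in s, w₀ x ∂μ| ≤ ∫ _ in s, M ∂μ := by
    intro s hs
    set e : Lp ℝ 2 μ := indicatorConstLp 2 hs (measure_ne_top μ _) (1 : ℝ)
    have h1 : G e = ∫ x in s, w₀ x ∂μ := by
      rw [hw, ← integral_indicator hs]
      refine integral_congr_ae ?_
      filter_upwards [indicatorConstLp_coeFn (p := 2) (hs := hs) (hμs := measure_ne_top μ _)
        (c := (1 : ℝ))] with x hx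
      rw [hx]
      by_cases hxs : x ∈ s <;> simp [hxs]
    have h2 : ∫ x, |e x| ∂μ = μ.real s := by
      rw [← integral_indicator_one hs]
      refine integral_congr_ae ?_
      filter_upwards [indicatorConstLp_coeFn (p := 2) (hs := hs) (hμs := measure_ne_top μ _)
        (c := (1 : ℝ))] with x hx
      rw [hx]
      by_cases hxs : x ∈ s <;> simp [hxs]
    have := habs e
    rw [h1, h2] at this
    rw [setIntegral_const, smul_eq_mul, mul_comm]
    exact this
  have hup : w₀ ≤ᵐ[μ] fun _ => M :=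
    ae_le_of_forall_setIntegral_le hint (integrable_const M) fun s hs _ =>
      (le_abs_self _).trans (hS s hs)
  have hlo : (fun _ => -M) ≤ᵐ[μ] w₀ :=
    ae_le_of_forall_setIntegral_le (integrable_const (-M)) hint fun s hs _ => by
      have := (abs_le.1 (hS s hs)).1
      rwa [integral_neg]
  refine ⟨fun x => max (-M) (min M (w₀ x)), ?_, fun x => ?_, fun h => ?_⟩
  · exact measurable_const.max (measurable_const.min (Lp.stronglyMeasurable w₀).measurable)
  · exact abs_le.2 ⟨le_max_left _ _, max_le (by linarith) (min_le_left _ _)⟩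
  · rw [hw]
    refine integral_congr_ae ?_
    filter_upwards [hup, hlo] with x h1 h2
    rw [min_eq_right h1, max_eq_right h2]

variable {E : Type*} [NormedAddCommGroup E] [InnerProductSpace ℝ E] [FiniteDimensional ℝ E]

/-- The wide test functions as a subspace. -/
def wtestSub (Ω : Set E) : Submodule ℝ (E → ℝ) where
  carrier := {ζ | IsWTest Ω ζ}
  add_mem' := fun ha hb => ha.add hb
  zero_mem' := IsWTest.zero Ω
  smul_mem' := fun c _ ha => ha.smul c

variable [MeasurableSpace E] [BorelSpace E] {m : Measure E} [m.IsAddHaarMeasure]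

lemma IsWTest.memLp {Ω : Set E} (hΩ : IsOpen Ω) (hb : Bornology.IsBounded Ω)
    {ζ : E → ℝ} (h : IsWTest Ω ζ) : MemLp (Δ ζ) 2 (m.restrict Ω) := by
  have : IsFiniteMeasure (m.restrict Ω) := isFiniteMeasure_restrict.2 hb.measure_lt_top.ne
  obtain ⟨C, hC⟩ := h.bdd
  exact MemLp.of_bound (h.continuousOn_laplacian.aestronglyMeasurable hΩ.measurableSet) C
    ((ae_restrict_iff' hΩ.measurableSet).2 (Eventually.of_forall fun x hx => hC x hx))

/-- Bounded weak solutions for bounded nonnegative data. -/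
theorem exists_bounded_solution [Nontrivial E] {Ω : Set E} (hΩ : IsOpen Ω)
    (hb : Bornology.IsBounded Ω) :
    ∃ C : ℝ, 0 ≤ C ∧ ∀ (φ : E → ℝ) (b : ℝ), Measurable φ → (∀ x, 0 ≤ φ x) → (∀ x, φ x ≤ b) →
      ∃ w : E → ℝ, Measurable w ∧ (∀ x, |w x| ≤ C * b) ∧
        ∀ ζ, IsWTest Ω ζ → -∫ x in Ω, w x * Δ ζ x ∂m = ∫ x in Ω, ζ x * φ x ∂m := by
  obtain ⟨C, hC0, hC⟩ := kato (m := m) hΩ hb
  refine ⟨C, hC0, fun φ b hφ hφ0 hφb => ?_⟩
  have : IsFiniteMeasure (m.restrict Ω) := isFiniteMeasure_restrict.2 hb.measure_lt_top.ne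
  have hb0 : 0 ≤ b := (hφ0 0).trans (hφb 0)
  have hae : ∀ᵐ x ∂m.restrict Ω, x ∈ Ω := ae_restrict_mem hΩ.measurableSet
  have hint : ∀ ζ, IsWTest Ω ζ → IntegrableOn (fun x => ζ x * φ x) Ω m := fun ζ hζ =>
    (hζ.integrableOn hb).mul_bdd (c := b) hφ.aestronglyMeasurable
      (Eventually.of_forall fun x => by rw [Real.norm_eq_abs, abs_of_nonneg (hφ0 x)]; exact hφb x)
  let L : wtestSub Ω →ₗ[ℝ] Lp ℝ 2 (m.restrict Ω) :=
    { toFun := fun ζ => (IsWTest.memLp hΩ hb ζ.2).toLp _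
      map_add' := fun a b => by
        rw [← MemLp.toLp_add]
        refine MemLp.toLp_congr _ _ ?_
        filter_upwards [hae] with x hx
        exact (a.2.smooth x hx).laplacian_add (b.2.smooth x hx)
      map_smul' := fun c a => by
        rw [RingHom.id_apply, ← MemLp.toLp_const_smul]
        refine MemLp.toLp_congr _ _ ?_
        filter_upwards [hae] with x hx
        exact InnerProductSpace.laplacian_smul c (a.2.smooth x hx) }
  have hL : ∀ ζ : wtestSub Ω, (L ζ : E → ℝ) =ᵐ[m.restrict Ω] Δ (ζ : E → ℝ) := fun ζ =>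
    MemLp.coeFn_toLp (IsWTest.memLp hΩ hb ζ.2)
  let l : wtestSub Ω →ₗ[ℝ] ℝ :=
    { toFun := fun ζ => ∫ x in Ω, (ζ : E → ℝ) x * φ x ∂m
      map_add' := fun a b => by
        rw [← integral_add (hint _ a.2) (hint _ b.2)]
        simp [add_mul]
      map_smul' := fun c a => by
        simp [mul_assoc, integral_const_mul] }
  have hi2 : ∀ h : Lp ℝ 2 (m.restrict Ω), Integrable (fun x => |h x|) (m.restrict Ω) := fun h =>
    ((Lp.memLp h).integrable (by norm_num)).abs
  obtain ⟨G, hG1, hG2⟩ := exists_factor_le L l (fun h => C * b * ∫ x in Ω, |h x| ∂m)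
    (fun c hc h => by
      have : ∫ x in Ω, |(c • h) x| ∂m = c * ∫ x in Ω, |h x| ∂m := by
        rw [← integral_const_mul]
        refine integral_congr_ae ?_
        filter_upwards [Lp.coeFn_smul c h] with x hx
        rw [hx, Pi.smul_apply, smul_eq_mul, abs_mul, abs_of_pos hc]
      rw [this]
      ring)
    (fun h k => by
      have : ∫ x in Ω, |(h + k) x| ∂m ≤ ∫ x in Ω, |h x| ∂m + ∫ x in Ω, |k x| ∂m := by
        rw [← integral_add (hi2 h) (hi2 k)]
        refine integral_mono_ae (hi2 _) ((hi2 h).add (hi2 k)) ?_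
        filter_upwards [Lp.coeFn_add h k] with x hx
        rw [hx, Pi.add_apply]
        exact abs_add_le _ _
      rw [← mul_add]
      exact mul_le_mul_of_nonneg_left this (mul_nonneg hC0 hb0))
    (fun ζ => by
      have h1 : ∫ x in Ω, |(L ζ) x| ∂m = ∫ x in Ω, |Δ (ζ : E → ℝ) x| ∂m := by
        refine integral_congr_ae ?_
        filter_upwards [hL ζ] with x hx
        rw [hx]
      have h2 : ∫ x in Ω, (ζ : E → ℝ) x * φ x ∂m ≤ ∫ x in Ω, b * max ((ζ : E → ℝ) x) 0 ∂m := by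
        refine integral_mono (hint _ ζ.2) ((IsWTest.integrableOn hb ζ.2).pos_part.const_mul b)
          fun x => ?_
        have := hφ0 x
        have := hφb x
        have h3 := le_max_left ((ζ : E → ℝ) x) 0
        have h4 := le_max_right ((ζ : E → ℝ) x) 0
        simp only
        nlinarith
      rw [integral_const_mul] at h2
      show ∫ x in Ω, (ζ : E → ℝ) x * φ x ∂m ≤ C * b * ∫ x in Ω, |(L ζ) x| ∂m
      rw [h1]
      have h3 := mul_le_mul_of_nonneg_left (hC ζ ζ.2) hb0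
      linarith)
  obtain ⟨w, hw, hwb, hwG⟩ := exists_bounded_repr (m.restrict Ω) G (mul_nonneg hC0 hb0) hG2
  refine ⟨fun x => -w x, hw.neg, fun x => by rw [abs_neg]; exact hwb x, fun ζ hζ => ?_⟩
  have h1 := hG1 ⟨ζ, hζ⟩
  rw [hwG] at h1
  have h2 : ∫ x in Ω, w x * (L ⟨ζ, hζ⟩) x ∂m = ∫ x in Ω, w x * Δ ζ x ∂m := by
    refine integral_congr_ae ?_
    filter_upwards [hL ⟨ζ, hζ⟩] with x hx
    rw [hx]
  simp only [neg_mul, integral_neg, neg_neg]
  rw [← h2, h1]
  rfl

end Pool.Agent.Lib.MP_8eef66_an
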