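import Mathlib

/-!
Measure theoretic lemmas: exhaustion by compact sets, averaging over a half good ball, and a
bounded overlap estimate for balls with radius proportional to the distance to a set.
-/

open MeasureTheory Set Filter Topology Metric
open scoped ENNReal

namespace Pool.Agent.Lib.MP_8eef66_an

set_option linter.unusedSectionVars false

variable {E : Type*} [NormedAddCommGroup E] [NormedSpace ℝ E] [FiniteDimensional ℝ E]
  [MeasurableSpace E] [BorelSpace E]

lemma exists_compact_exhaust (μ : Measure E) [IsFiniteMeasure μ] {T : Set E}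
    (hT : MeasurableSet T) {S : ℕ → Set E} (hS : ∀ j, MeasurableSet (S j)) (hmono : Monotone S)
    (hcov : ∀ᵐ x ∂μ, x ∈ T → ∃ j, x ∈ S j) {ε : ℝ≥0∞} (hε : ε ≠ 0) :
    ∃ j K, IsCompact K ∧ K ⊆ T ∧ K ⊆ S j ∧ μ (T \ K) ≤ ε := by
  have hε2 : ε / 2 ≠ 0 := (ENNReal.half_pos hε).ne'
  have h1 : Tendsto (μ ∘ fun j => T \ S j) atTop (𝓝 (μ (⋂ j, T \ S j))) :=
    tendsto_measure_iInter_atTop (fun j => (hT.diff (hS j)).nullMeasurableSet)
      (fun i j hij => sdiff_subset_sdiff_right (hmono hij)) ⟨0, measure_ne_top _ _⟩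
  have h2 : μ (⋂ j, T \ S j) = 0 := by
    refine measure_mono_null (fun x hx => ?_) (ae_iff.1 hcov)
    simp only [mem_iInter, Set.mem_sdiff] at hx
    simp only [mem_ofPred_eq, not_forall, not_exists]
    exact ⟨(hx 0).1, fun j => (hx j).2⟩
  rw [h2] at h1
  obtain ⟨j, hj⟩ := (h1.eventually (gt_mem_nhds (pos_iff_ne_zero.2 hε2))).exists
  obtain ⟨K, hK1, hK2, hK3⟩ :=
    (hT.inter (hS j)).exists_isCompact_sdiff_lt (μ := μ) (measure_ne_top _ _) hε2
  refine ⟨j, K, hK2, hK1.trans inter_subset_left, hK1.trans inter_subset_right, ?_⟩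
  calc μ (T \ K) ≤ μ ((T \ S j) ∪ ((T ∩ S j) \ K)) := by
        refine measure_mono fun x hx => ?_
        by_cases h : x ∈ S j
        · exact Or.inr ⟨⟨hx.1, h⟩, hx.2⟩
        · exact Or.inl ⟨hx.1, h⟩
    _ ≤ ε / 2 + ε / 2 := (measure_union_le _ _).trans (add_le_add hj.le hK3.le)
    _ = ε := ENNReal.add_halves ε

lemma mul_measure_le_of_half {α : Type*} [MeasurableSpace α] (m : Measure α) {B Z : Set α}
    (hB : MeasurableSet B) (hZ : MeasurableSet Z) (hfin : m B ≠ ∞) (hhalf : m (Z ∩ B) ≤ m B / 2)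
    {t : ℝ≥0∞} {F : α → ℝ≥0∞} (h : ∀ᵐ z ∂m, z ∈ B → z ∉ Z → t ≤ F z) :
    t * m B ≤ 2 * ∫⁻ z in B, F z ∂m := by
  have h1 : m B / 2 ≤ m (B \ Z) := by
    have h2 := measure_le_inter_add_sdiff m B Z
    rw [inter_comm] at h2
    have h3 : m B / 2 + m B / 2 ≤ m B / 2 + m (B \ Z) := by
      rw [ENNReal.add_halves]
      exact h2.trans (add_le_add hhalf le_rfl)
    exact ENNReal.le_of_add_le_add_left (ENNReal.div_ne_top hfin two_ne_zero) h3
  have h4 : t * m (B \ Z) ≤ ∫⁻ z in B, F z ∂m := by
    rw [← setLIntegral_const]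
    refine le_trans ?_ (lintegral_mono_set (sdiff_subset (t := Z)))
    refine lintegral_mono_ae ((ae_restrict_iff' (hB.diff hZ)).2 ?_)
    filter_upwards [h] with z hz hz' using hz hz'.1 hz'.2
  calc t * m B = 2 * (t * (m B / 2)) := by
        rw [mul_left_comm, ENNReal.mul_div_cancel two_ne_zero ENNReal.ofNat_ne_top]
    _ ≤ 2 * (t * m (B \ Z)) := by gcongr
    _ ≤ _ := by gcongr

variable (m : Measure E) [m.IsAddHaarMeasure]

/-- Volume of a ball of radius `t`. -/
noncomputable def vol (m : Measure E) (t : ℝ) : ℝ≥0∞ :=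
  ENNReal.ofReal (t ^ Module.finrank ℝ E) * m (closedBall 0 1)

lemma measure_ball_eq (x : E) {t : ℝ} (ht : 0 ≤ t) : m (closedBall x t) = vol m t :=
  Measure.addHaar_closedBall' m x ht

lemma vol_mul {a : ℝ} (ha : 0 ≤ a) (t : ℝ) :
    vol m (a * t) = ENNReal.ofReal (a ^ Module.finrank ℝ E) * vol m t := by
  rw [vol, vol, mul_pow, ENNReal.ofReal_mul (by positivity), mul_assoc]

lemma vol_ne_top (t : ℝ) : vol m t ≠ ∞ :=
  ENNReal.mul_ne_top ENNReal.ofReal_ne_top measure_closedBall_lt_top.ne

lemma vol_ne_zero {t : ℝ} (ht : 0 < t) : vol m t ≠ 0 := by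
  rw [← measure_ball_eq m 0 ht.le]
  exact (measure_closedBall_pos m _ ht).ne'

lemma vol_mono {s t : ℝ} (hs : 0 ≤ s) (h : s ≤ t) : vol m s ≤ vol m t := by
  unfold vol
  gcongr

lemma overlap (A : Set E) (σ : Measure E) [IsFiniteMeasure σ] {η : ℝ} (hη : 0 < η) (hη1 : η < 1)
    {S : Set E} (hS : MeasurableSet S) {h : E → ℝ≥0∞}
    (hh : ∀ y ∈ S, 0 < infDist y A ∧ h y * m (closedBall y (η * infDist y A))
      ≤ 2 * σ (closedBall y (η * infDist y A))) :
    ∫⁻ y in S, h y ∂m < ∞ := by
  classical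
  set n := Module.finrank ℝ E
  set W : Set (E × E) := {p | dist p.2 p.1 ≤ η * infDist p.1 A ∧ 0 < infDist p.1 A} with hW
  have hd : Continuous fun y : E => infDist y A := continuous_infDist_pt A
  have hWm : MeasurableSet W :=
    (measurableSet_le (f := fun p : E × E => dist p.2 p.1) (g := fun p => η * infDist p.1 A)
      (by fun_prop) (by fun_prop)).inter
      (measurableSet_lt (f := fun _ : E × E => (0 : ℝ)) (g := fun p => infDist p.1 A)
        (by fun_prop) (by fun_prop))
  set k : E × E → ℝ≥0∞ := W.indicator fun p => 2 * (vol m (η * infDist p.1 A))⁻¹ with hk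
  have hkm : Measurable k := by
    refine Measurable.indicator ?_ hWm
    unfold vol
    fun_prop
  have h1 : ∀ y ∈ S, h y ≤ ∫⁻ z, k (y, z) ∂σ := by
    intro y hy
    obtain ⟨hy0, hy1⟩ := hh y hy
    have ht : 0 < η * infDist y A := mul_pos hη hy0
    rw [measure_ball_eq m y ht.le] at hy1
    have h2 : ∫⁻ z, k (y, z) ∂σ
        = 2 * (vol m (η * infDist y A))⁻¹ * σ (closedBall y (η * infDist y A)) := by
      rw [← lintegral_indicator_const measurableSet_closedBall]
      refine lintegral_congr fun z => ?_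
      by_cases hz : z ∈ closedBall y (η * infDist y A)
      · rw [indicator_of_mem hz, hk, indicator_of_mem (show (y, z) ∈ W from ⟨hz, hy0⟩)]
      · rw [indicator_of_notMem hz, hk, indicator_of_notMem (fun hw : (y, z) ∈ W => hz hw.1)]
    rw [h2]
    calc h y = h y * vol m (η * infDist y A) * (vol m (η * infDist y A))⁻¹ := by
          rw [mul_assoc, ENNReal.mul_inv_cancel (vol_ne_zero m ht) (vol_ne_top m _), mul_one]
      _ ≤ 2 * σ (closedBall y (η * infDist y A)) * (vol m (η * infDist y A))⁻¹ := by gcongr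
      _ = _ := by ring
  have h3 : ∀ z, ∫⁻ y, k (y, z) ∂m ≤ 2 * ENNReal.ofReal (((1 + η) / (1 - η)) ^ n) := by
    intro z
    have hη2 : 0 < 1 - η := by linarith
    have key : ∀ y, (y, z) ∈ W → 0 < infDist z A ∧ dist y z ≤ η * infDist z A / (1 - η) ∧
        η * infDist z A / (1 + η) ≤ η * infDist y A := by
      rintro y ⟨hy1, hy2⟩
      simp only at hy1 hy2
      have a1 : infDist y A ≤ infDist z A + dist y z := infDist_le_infDist_add_dist
      have a2 : infDist z A ≤ infDist y A + dist z y := infDist_le_infDist_add_dist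
      rw [dist_comm y z] at a1 ⊢
      refine ⟨by nlinarith, ?_, ?_⟩
      · rw [le_div_iff₀ hη2]
        nlinarith
      · rw [div_le_iff₀ (by linarith)]
        nlinarith
    by_cases hz : 0 < infDist z A
    · set a := η * infDist z A / (1 + η) with ha
      have ha0 : 0 < a := by positivity
      have hb : η * infDist z A / (1 - η) = (1 + η) / (1 - η) * a := by
        rw [ha]
        field_simp
      calc ∫⁻ y, k (y, z) ∂m
          ≤ ∫⁻ y, (closedBall z (η * infDist z A / (1 - η))).indicator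
              (fun _ => 2 * (vol m a)⁻¹) y ∂m := by
            refine lintegral_mono fun y => ?_
            by_cases hy : (y, z) ∈ W
            · obtain ⟨-, b1, b2⟩ := key y hy
              rw [hk, indicator_of_mem hy, indicator_of_mem (mem_closedBall.2 b1)]
              exact mul_le_mul_right (ENNReal.inv_le_inv.2 (vol_mono m ha0.le b2)) _
            · rw [hk, indicator_of_notMem hy]
              exact zero_le
        _ = _ := by
            rw [lintegral_indicator_const measurableSet_closedBall,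
              measure_ball_eq m z (by positivity), hb, vol_mul m (by positivity), mul_assoc,
              mul_left_comm (vol m a)⁻¹, ENNReal.inv_mul_cancel (vol_ne_zero m ha0) (vol_ne_top m _),
              mul_one]
    · have : ∀ y, k (y, z) = 0 := fun y => by
        rw [hk, indicator_of_notMem (fun hw => hz (key y hw).1)]
      simp [this]
  calc ∫⁻ y in S, h y ∂m ≤ ∫⁻ y in S, ∫⁻ z, k (y, z) ∂σ ∂m := setLIntegral_mono' hS h1
    _ ≤ ∫⁻ y, ∫⁻ z, k (y, z) ∂σ ∂m := setLIntegral_le_lintegral _ _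
    _ = ∫⁻ z, ∫⁻ y, k (y, z) ∂m ∂σ :=
        lintegral_lintegral_swap (f := fun y z => k (y, z)) hkm.aemeasurable
    _ ≤ ∫⁻ _, 2 * ENNReal.ofReal (((1 + η) / (1 - η)) ^ n) ∂σ := lintegral_mono h3
    _ < ∞ := by
        rw [lintegral_const]
        exact ENNReal.mul_lt_top (ENNReal.mul_lt_top ENNReal.ofNat_lt_top ENNReal.ofReal_lt_top)
          (measure_lt_top _ _)

end Pool.Agent.Lib.MP_8eef66_an
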