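import Mathlib
import Pool.Agent.Lib.MP_8eef66_an.Potential

/-!
The basic representation identity at a Lebesgue point.
-/

open MeasureTheory Set Filter Topology Metric
open scoped ENNReal

namespace Pool.Agent.Lib.MP_8eef66_an

set_option linter.unusedSectionVars false

variable {E : Type*} [NormedAddCommGroup E] [MeasurableSpace E] [BorelSpace E]
  [SecondCountableTopology E]

lemma slice_integrable (n : ℕ) (R : ℝ) (τ : Measure E) [SFinite τ] {φ : E → ℝ}
    (hφ : AEStronglyMeasurable φ τ) (y : E)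
    (hfin : ∫⁻ x, ‖φ x‖ₑ * gam n R ‖x - y‖ ∂τ < ∞) :
    IntegrableOn (fun s => ∫ x, φ x * eta n s (‖x - y‖ ^ 2) ∂τ) (Ioc 0 R) ∧
      ∫ s in Ioc 0 R, ∫ x, φ x * eta n s (‖x - y‖ ^ 2) ∂τ
        = ∫ x, φ x * (gam n R ‖x - y‖).toReal ∂τ := by
  have hm : AEStronglyMeasurable (fun p : ℝ × E => φ p.2 * eta n p.1 (‖p.2 - y‖ ^ 2))
      ((volume.restrict (Ioc 0 R)).prod τ) :=
    hφ.comp_snd.mul (Measurable.aestronglyMeasurable (by fun_prop))
  have hi : Integrable (fun p : ℝ × E => φ p.2 * eta n p.1 (‖p.2 - y‖ ^ 2))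
      ((volume.restrict (Ioc 0 R)).prod τ) := by
    refine ⟨hm, ?_⟩
    rw [hasFiniteIntegral_iff_enorm, lintegral_prod_symm _ hm.enorm]
    refine lt_of_eq_of_lt (lintegral_congr fun x => ?_) hfin
    simp only [enorm_mul]
    rw [lintegral_const_mul' _ _ enorm_ne_top, gam]
    congr 1
    refine setLIntegral_congr_fun measurableSet_Ioc fun s hs => ?_
    exact Real.enorm_of_nonneg (eta_nonneg n hs.1.le _)
  refine ⟨hi.integral_prod_left, ?_⟩
  rw [integral_integral_swap (f := fun s x => φ x * eta n s (‖x - y‖ ^ 2)) hi]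
  refine integral_congr_ae (Eventually.of_forall fun x => ?_)
  simp only
  rw [integral_const_mul, toReal_gam]

lemma swap_lam (n : ℕ) (τ : Measure E) [SFinite τ] {u : E → ℝ} (hu : Integrable u τ) (y : E)
    {a b : ℝ} (ha : 0 < a) (hab : a ≤ b) :
    ∫ s in Ioc a b, ∫ x, u x * lam n s (‖x - y‖ ^ 2) ∂τ
      = ∫ x, u x * rho n b (‖x - y‖ ^ 2) ∂τ - ∫ x, u x * rho n a (‖x - y‖ ^ 2) ∂τ := by
  obtain ⟨B, hB0, hB⟩ := exists_lam_bound n
  obtain ⟨B', hB0', hB'⟩ := exists_rho_bound
  have hi : Integrable (fun p : ℝ × E => u p.2 * lam n p.1 (‖p.2 - y‖ ^ 2))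
      ((volume.restrict (Ioc a b)).prod τ) := by
    refine (hu.comp_snd _).mul_bdd (c := B / (a * a ^ n))
      (Measurable.aestronglyMeasurable (by fun_prop)) ?_
    have : ∀ᵐ p : ℝ × E ∂((volume.restrict (Ioc a b)).prod τ), p.1 ∈ Ioc a b :=
      Measure.quasiMeasurePreserving_fst.ae (ae_restrict_mem measurableSet_Ioc)
    filter_upwards [this] with p hp
    have h1 : 0 < p.1 := ha.trans hp.1
    refine (hB p.1 _ h1 (by positivity)).trans ?_
    have := hp.1.le
    gcongr
  have hr : ∀ c, 0 < c → Integrable (fun x => u x * rho n c (‖x - y‖ ^ 2)) τ := fun c hc =>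
    hu.mul_bdd (c := B' / c ^ n) (Measurable.aestronglyMeasurable (by fun_prop))
      (Eventually.of_forall fun x => by
        rw [Real.norm_eq_abs, abs_of_nonneg (rho_nonneg n hc.le _)]
        exact hB' n c _ hc (by positivity))
  rw [integral_integral_swap (f := fun s x => u x * lam n s (‖x - y‖ ^ 2)) hi,
    ← integral_sub (hr b (ha.trans_le hab)) (hr a ha)]
  refine integral_congr_ae (Eventually.of_forall fun x => ?_)
  simp only
  rw [integral_const_mul, integral_lam n ha hab, mul_sub]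

variable [NormedSpace ℝ E] [FiniteDimensional ℝ E] (m : Measure E) [m.IsAddHaarMeasure]

/-- Total mass of the mollifier. -/
noncomputable def mass (m : Measure E) : ℝ := ∫ x, rho (Module.finrank ℝ E) 1 (‖x‖ ^ 2) ∂m

omit [SecondCountableTopology E] in
lemma integral_rho {a : ℝ} (ha : 0 < a) (y : E) :
    ∫ x, rho (Module.finrank ℝ E) a (‖x - y‖ ^ 2) ∂m = mass m := by
  rw [integral_sub_right_eq_self (fun x => rho (Module.finrank ℝ E) a (‖x‖ ^ 2)) y]
  have h1 : ∀ x : E, rho (Module.finrank ℝ E) a (‖x‖ ^ 2)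
      = (a ^ Module.finrank ℝ E)⁻¹ * rho (Module.finrank ℝ E) 1 (‖a⁻¹ • x‖ ^ 2) := by
    intro x
    rw [rho, rho, norm_smul, norm_inv, Real.norm_eq_abs, abs_of_pos ha]
    have : (a⁻¹ * ‖x‖) ^ 2 / 1 ^ 2 = ‖x‖ ^ 2 / a ^ 2 := by field_simp
    rw [this]
    field_simp
    simp
  simp only [h1]
  rw [integral_const_mul,
    Measure.integral_comp_smul m (fun x : E => rho (Module.finrank ℝ E) 1 (‖x‖ ^ 2)) a⁻¹,
    inv_pow, inv_inv, abs_of_pos (by positivity), smul_eq_mul, ← mul_assoc,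
    inv_mul_cancel₀ (by positivity), one_mul, mass]

omit [MeasurableSpace E] [BorelSpace E] [SecondCountableTopology E] in
lemma hasCompactSupport_rho (n : ℕ) {a : ℝ} (ha : 0 < a) (y : E) :
    HasCompactSupport (fun x : E => rho n a (‖x - y‖ ^ 2)) := by
  refine HasCompactSupport.intro (isCompact_closedBall y (2 * a)) fun x hx => ?_
  rw [mem_closedBall_iff_norm, not_le] at hx
  exact rho_eq_zero n ha hx.le

omit [SecondCountableTopology E] in
lemma integrable_rho (n : ℕ) {a : ℝ} (ha : 0 < a) (y : E) :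
    Integrable (fun x : E => rho n a (‖x - y‖ ^ 2)) m :=
  Continuous.integrable_of_hasCompactSupport ((continuous_rho n a).comp (by fun_prop))
    (hasCompactSupport_rho n ha y)

omit [SecondCountableTopology E] in
lemma mass_pos [Nontrivial E] : 0 < mass m := by
  obtain ⟨t, ht, ht'⟩ := exists_dcut_ne
  obtain ⟨x, hx⟩ := exists_norm_eq E (Real.sqrt_nonneg t)
  have h := hasCompactSupport_rho (Module.finrank ℝ E) one_pos (0 : E)
  simp only [sub_zero] at h
  refine Continuous.integral_pos_of_hasCompactSupport_nonneg_nonzero (x := x)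
    ((continuous_rho _ 1).comp (by fun_prop)) h (fun z => rho_nonneg _ zero_le_one _) ?_
  rw [hx, Real.sq_sqrt ht.le, rho]
  simpa using ht'

omit [SecondCountableTopology E] in
lemma tendsto_rho {u : E → ℝ} (hu : Integrable u m) {y : E}
    (hy : Tendsto (fun r => ⨍ x in closedBall y r, ‖u x - u y‖ ∂m) (𝓝[>] 0) (𝓝 0)) :
    Tendsto (fun a => ∫ x, u x * rho (Module.finrank ℝ E) a (‖x - y‖ ^ 2) ∂m) (𝓝[>] 0)
      (𝓝 (mass m * u y)) := by
  obtain ⟨B, hB0, hB⟩ := exists_rho_bound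
  set n := Module.finrank ℝ E
  set ω := m.real (closedBall (0 : E) 1)
  have h2 : Tendsto (fun a : ℝ => 2 * a) (𝓝[>] 0) (𝓝[>] 0) := by
    refine tendsto_nhdsWithin_iff.2 ⟨?_, ?_⟩
    · have : Tendsto (fun a : ℝ => 2 * a) (𝓝 0) (𝓝 (2 * 0)) :=
        (continuous_const.mul continuous_id).tendsto 0
      rw [mul_zero] at this
      exact this.mono_left nhdsWithin_le_nhds
    · filter_upwards [self_mem_nhdsWithin] with a (ha : 0 < a)
      exact mul_pos two_pos ha
  have h3 := (hy.comp h2).const_mul (B * 2 ^ n * ω)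
  rw [mul_zero] at h3
  rw [tendsto_iff_norm_sub_tendsto_zero]
  refine squeeze_zero' (Eventually.of_forall fun a => norm_nonneg _) ?_ h3
  filter_upwards [self_mem_nhdsWithin] with a (ha : 0 < a)
  have hbd : ∀ x : E, ‖rho n a (‖x - y‖ ^ 2)‖ ≤ B / a ^ n := fun x => by
    rw [Real.norm_eq_abs, abs_of_nonneg (rho_nonneg n ha.le _)]
    exact hB n a _ ha (by positivity)
  have hi1 : Integrable (fun x => u x * rho n a (‖x - y‖ ^ 2)) m :=
    hu.mul_bdd (Measurable.aestronglyMeasurable (by fun_prop)) (Eventually.of_forall hbd)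
  have hi2 : Integrable (fun x => u y * rho n a (‖x - y‖ ^ 2)) m :=
    (integrable_rho m n ha y).const_mul _
  have hi3 : IntegrableOn (fun x => ‖u x - u y‖) (closedBall y (2 * a)) m :=
    (hu.integrableOn.sub (integrableOn_const measure_closedBall_lt_top.ne)).norm
  rw [← integral_rho m ha y, mul_comm _ (u y), ← integral_const_mul, ← integral_sub hi1 hi2]
  have h4 : ‖∫ x, (u x * rho n a (‖x - y‖ ^ 2) - u y * rho n a (‖x - y‖ ^ 2)) ∂m‖
      ≤ ∫ x, (closedBall y (2 * a)).indicator (fun x => B / a ^ n * ‖u x - u y‖) x ∂m := by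
    refine norm_integral_le_of_norm_le
      ((integrable_indicator_iff measurableSet_closedBall).2 (hi3.const_mul _))
      (Eventually.of_forall fun x => ?_)
    by_cases hx : x ∈ closedBall y (2 * a)
    · rw [indicator_of_mem hx, ← sub_mul, norm_mul, mul_comm]
      exact mul_le_mul_of_nonneg_right (hbd x) (norm_nonneg _)
    · rw [indicator_of_notMem hx]
      rw [mem_closedBall_iff_norm, not_le] at hx
      simp [rho_eq_zero n ha hx.le]
  refine h4.trans (le_of_eq ?_)
  have hω : 0 < ω := ENNReal.toReal_pos (measure_closedBall_pos m _ one_pos).ne'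
    measure_closedBall_lt_top.ne
  rw [integral_indicator measurableSet_closedBall, integral_const_mul, Function.comp_apply,
    setAverage_eq, Measure.addHaar_real_closedBall' m y (by positivity), smul_eq_mul, mul_pow]
  generalize ∫ x in closedBall y (2 * a), ‖u x - u y‖ ∂m = J
  show B / a ^ n * J = B * 2 ^ n * ω * ((2 ^ n * a ^ n * ω)⁻¹ * J)
  field_simp

lemma core_identity {u : E → ℝ} (hu : Integrable u m) {y : E}
    (hy : Tendsto (fun r => ⨍ x in closedBall y r, ‖u x - u y‖ ∂m) (𝓝[>] 0) (𝓝 0))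
    {R : ℝ} (hR : 0 < R)
    (hG : IntegrableOn (fun s => ∫ x, u x * lam (Module.finrank ℝ E) s (‖x - y‖ ^ 2) ∂m)
      (Ioc 0 R)) :
    ∫ s in Ioc 0 R, ∫ x, u x * lam (Module.finrank ℝ E) s (‖x - y‖ ^ 2) ∂m
      = ∫ x, u x * rho (Module.finrank ℝ E) R (‖x - y‖ ^ 2) ∂m - mass m * u y := by
  set n := Module.finrank ℝ E
  set G : ℝ → ℝ := fun s => ∫ x, u x * lam n s (‖x - y‖ ^ 2) ∂m
  have h1 : IntegrableOn G (uIcc 0 R) := by
    rw [uIcc_of_le hR.le]
    exact (integrableOn_Icc_iff_integrableOn_Ioc).2 hG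
  have h2 := intervalIntegral.continuousOn_primitive_interval_left h1 0 left_mem_uIcc
  rw [uIcc_of_le hR.le] at h2
  have h3 : Tendsto (fun a => ∫ t in a..R, G t) (𝓝[>] 0) (𝓝 (∫ t in (0 : ℝ)..R, G t)) :=
    h2.tendsto.mono_left (nhdsWithin_le_of_mem (Icc_mem_nhdsGT hR))
  have h4 := (tendsto_rho m hu hy).const_sub (∫ x, u x * rho n R (‖x - y‖ ^ 2) ∂m)
  rw [← intervalIntegral.integral_of_le hR.le]
  refine tendsto_nhds_unique h3 (h4.congr' ?_)
  filter_upwards [Ioc_mem_nhdsGT hR] with a ha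
  rw [intervalIntegral.integral_of_le ha.2, swap_lam n m hu y ha.1 ha.2]

omit [SecondCountableTopology E] in
lemma lebesgue_of_continuousAt {u : E → ℝ} {y : E} (hy : ContinuousAt u y) :
    Tendsto (fun r => ⨍ x in closedBall y r, ‖u x - u y‖ ∂m) (𝓝[>] 0) (𝓝 0) := by
  rw [Metric.tendsto_nhds]
  intro ε hε
  obtain ⟨δ, hδ, h⟩ := Metric.continuousAt_iff.1 hy (ε / 2) (half_pos hε)
  filter_upwards [Ioo_mem_nhdsGT hδ] with r hr
  have hpos : 0 < m.real (closedBall y r) :=
    ENNReal.toReal_pos (measure_closedBall_pos m _ hr.1).ne' measure_closedBall_lt_top.ne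
  have h1 : ‖∫ x in closedBall y r, ‖u x - u y‖ ∂m‖ ≤ ε / 2 * m.real (closedBall y r) := by
    refine norm_setIntegral_le_of_norm_le_const measure_closedBall_lt_top fun x hx => ?_
    rw [norm_norm, ← dist_eq_norm]
    exact (h ((mem_closedBall.1 hx).trans_lt hr.2)).le
  rw [dist_zero_right, setAverage_eq, norm_smul, norm_inv, Real.norm_eq_abs, abs_of_pos hpos,
    inv_mul_lt_iff₀ hpos]
  nlinarith

end Pool.Agent.Lib.MP_8eef66_an
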