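import Mathlib
import Pool.Agent.Lib.MP_8eef66_an.Core
import Pool.Agent.Lib.MP_8eef66_an.Kato

/-!
Lower bound for a solution by potentials, and the equation solved by a truncated potential.
-/

open MeasureTheory Set Filter Topology Metric
open scoped ENNReal Laplacian

namespace Pool.Agent.Lib.MP_8eef66_an

set_option linter.unusedSectionVars false

variable {E : Type*} [NormedAddCommGroup E] [InnerProductSpace ℝ E] [FiniteDimensional ℝ E]
  [MeasurableSpace E] [BorelSpace E] (m : Measure E) [m.IsAddHaarMeasure]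

lemma integral_toReal_gam (n : ℕ) (R : ℝ) (μ : Measure E) {y : E} (h : pot n R μ y < ∞) :
    ∫ x, (gam n R ‖x - y‖).toReal ∂μ = (pot n R μ y).toReal := by
  have hm : Measurable fun x : E => gam n R ‖x - y‖ := by fun_prop
  exact integral_toReal hm.aemeasurable (ae_lt_top hm h.ne)

theorem lower_bound {u f : E → ℝ} (hu : Integrable u m) (hf : Integrable f m) (μ : Measure E)
    [IsFiniteMeasure μ] {R : ℝ} (hR : 0 < R) :
    ∃ C₀ : ℝ, ∀ᵐ y ∂m, (∀ s ∈ Ioc 0 R,
      -∫ x, u x * lam (Module.finrank ℝ E) s (‖x - y‖ ^ 2) ∂m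
        + ∫ x, f x * eta (Module.finrank ℝ E) s (‖x - y‖ ^ 2) ∂m
        = ∫ x, eta (Module.finrank ℝ E) s (‖x - y‖ ^ 2) ∂μ) →
      (pot (Module.finrank ℝ E) R μ y).toReal
        - (pot (Module.finrank ℝ E) R (m.withDensity fun x => ‖f x‖ₑ) y).toReal - C₀
        ≤ mass m * u y := by
  set n := Module.finrank ℝ E
  obtain ⟨B, hB0, hB⟩ := exists_rho_bound
  have : IsFiniteMeasure (m.withDensity fun x => ‖f x‖ₑ) := isFiniteMeasure_withDensity hf.2.ne
  refine ⟨B / R ^ n * ∫ x, ‖u x‖ ∂m, ?_⟩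
  filter_upwards [(Besicovitch.vitaliFamily m).ae_tendsto_average_norm_sub hu.locallyIntegrable,
    ae_pot_lt_top m R μ, ae_pot_lt_top m R (m.withDensity fun x => ‖f x‖ₑ)] with y hy h1 h2 heq
  have hy' := hy.comp (Besicovitch.tendsto_filterAt m y)
  have hσ : pot n R (m.withDensity fun x => ‖f x‖ₑ) y = ∫⁻ x, ‖f x‖ₑ * gam n R ‖x - y‖ ∂m :=
    lintegral_withDensity_eq_lintegral_mul₀ hf.1.enorm (Measurable.aemeasurable (by fun_prop))
  obtain ⟨i1, e1⟩ := slice_integrable n R m hf.1 y (hσ ▸ h2)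
  obtain ⟨i2, e2⟩ := slice_integrable n R μ (φ := fun _ => (1 : ℝ)) aestronglyMeasurable_const y
    (by simpa [pot] using h1)
  simp only [one_mul] at i2 e2
  rw [integral_toReal_gam n R μ h1] at e2
  have hG : ∀ s ∈ Ioc 0 R, ∫ x, u x * lam n s (‖x - y‖ ^ 2) ∂m
      = ∫ x, f x * eta n s (‖x - y‖ ^ 2) ∂m - ∫ x, eta n s (‖x - y‖ ^ 2) ∂μ := fun s hs => by
    linarith [heq s hs]
  have i3 : IntegrableOn (fun s => ∫ x, u x * lam n s (‖x - y‖ ^ 2) ∂m) (Ioc 0 R) :=
    (i1.sub i2).congr_fun (fun s hs => (hG s hs).symm) measurableSet_Ioc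
  have hc := core_identity m hu hy' hR i3
  rw [setIntegral_congr_fun measurableSet_Ioc hG, integral_sub i1 i2, e1, e2] at hc
  have h3 : ‖∫ x, f x * (gam n R ‖x - y‖).toReal ∂m‖
      ≤ (pot n R (m.withDensity fun x => ‖f x‖ₑ) y).toReal := by
    refine (norm_integral_le_lintegral_norm _).trans (ENNReal.toReal_mono h2.ne ?_)
    rw [hσ]
    refine lintegral_mono fun x => ?_
    simp only
    rw [norm_mul, ENNReal.ofReal_mul (norm_nonneg _), ofReal_norm,
      Real.norm_of_nonneg ENNReal.toReal_nonneg]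
    exact mul_le_mul_right ENNReal.ofReal_toReal_le _
  have h4 : ‖∫ x, u x * rho n R (‖x - y‖ ^ 2) ∂m‖ ≤ B / R ^ n * ∫ x, ‖u x‖ ∂m := by
    rw [← integral_const_mul]
    refine norm_integral_le_of_norm_le (hu.norm.const_mul _) (Eventually.of_forall fun x => ?_)
    rw [norm_mul, mul_comm, Real.norm_of_nonneg (rho_nonneg n hR.le _)]
    exact mul_le_mul_of_nonneg_right (hB n R _ hR (by positivity)) (norm_nonneg _)
  have h5 := (abs_le.1 h3).2
  have h6 := (abs_le.1 h4).1
  linarith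

lemma point_identity {Ω : Set E} (hΩ : IsOpen Ω) (hb : Bornology.IsBounded Ω) {R : ℝ}
    (hR : 0 < R) {ζ : E → ℝ} (hζ : IsWTest Ω ζ) {y : E} (hy : closedBall y (2 * R) ⊆ Ω) :
    ∫ x, Ω.indicator (Δ ζ) x * (gam (Module.finrank ℝ E) R ‖x - y‖).toReal ∂m
      = ∫ x, Ω.indicator ζ x * rho (Module.finrank ℝ E) R (‖x - y‖ ^ 2) ∂m - mass m * ζ y := by
  set n := Module.finrank ℝ E
  have hyΩ : y ∈ Ω := hy (mem_closedBall_self (by positivity))
  have i1 : Integrable (Ω.indicator ζ) m :=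
    (integrable_indicator_iff hΩ.measurableSet).2 (hζ.integrableOn hb)
  have i2 : Integrable (Ω.indicator (Δ ζ)) m :=
    (integrable_indicator_iff hΩ.measurableSet).2 (hζ.integrableOn_laplacian hΩ hb)
  obtain ⟨C, hC⟩ := hζ.bdd
  obtain ⟨D, hD, hD'⟩ := exists_pot_haar_le m R
  have hfin : ∫⁻ x, ‖Ω.indicator (Δ ζ) x‖ₑ * gam n R ‖x - y‖ ∂m < ∞ := by
    calc ∫⁻ x, ‖Ω.indicator (Δ ζ) x‖ₑ * gam n R ‖x - y‖ ∂m
        ≤ ∫⁻ x, ENNReal.ofReal C * gam n R ‖x - y‖ ∂m := by
          refine lintegral_mono fun x => mul_le_mul_left ?_ _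
          by_cases hx : x ∈ Ω
          · rw [indicator_of_mem hx, ← ofReal_norm]
            exact ENNReal.ofReal_le_ofReal (hC x hx)
          · simp [indicator_of_notMem hx]
      _ = ENNReal.ofReal C * pot n R m y := lintegral_const_mul' _ _ ENNReal.ofReal_ne_top
      _ < ∞ := ENNReal.mul_lt_top ENNReal.ofReal_lt_top ((hD' y).trans_lt hD)
  obtain ⟨i3, e3⟩ := slice_integrable n R m i2.1 y hfin
  have hG : ∀ s ∈ Ioc 0 R, ∫ x, Ω.indicator ζ x * lam n s (‖x - y‖ ^ 2) ∂m
      = ∫ x, Ω.indicator (Δ ζ) x * eta n s (‖x - y‖ ^ 2) ∂m := by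
    intro s hs
    have hsub : closedBall y (2 * s) ⊆ Ω :=
      (closedBall_subset_closedBall (by linarith [hs.2])).trans hy
    have hout : ∀ x, x ∉ Ω → 2 * s ≤ ‖x - y‖ := fun x hx => by
      by_contra h
      exact hx (hsub (mem_closedBall_iff_norm.2 (not_le.1 h).le))
    have hg := green (m := m) (contDiff_eta_normSq n s y (k := 2))
      ((isCompact_closedBall y (2 * s)).of_isClosed_subset (isClosed_tsupport _)
        (tsupport_eta n hs.1 y)) (b := ζ)
      (fun x hx => hζ.smooth x (hsub (tsupport_eta n hs.1 y hx)))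
    have e1 : ∀ x, Ω.indicator ζ x * lam n s (‖x - y‖ ^ 2)
        = Δ (fun x : E => eta n s (‖x - y‖ ^ 2)) x * ζ x := fun x => by
      rw [laplacian_eta hs.1]
      by_cases hx : x ∈ Ω
      · rw [indicator_of_mem hx, mul_comm]
      · rw [lam_eq_zero n hs.1 (hout x hx), mul_zero, zero_mul]
    have e2 : ∀ x, Ω.indicator (Δ ζ) x * eta n s (‖x - y‖ ^ 2)
        = eta n s (‖x - y‖ ^ 2) * Δ ζ x := fun x => by
      by_cases hx : x ∈ Ω
      · rw [indicator_of_mem hx, mul_comm]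
      · rw [eta_eq_zero n hs.1 (hout x hx), mul_zero, zero_mul]
    simp only [e1, e2]
    exact hg.symm
  have hcont : ContinuousAt (Ω.indicator ζ) y := by
    refine (hζ.smooth y hyΩ).continuousAt.congr ?_
    filter_upwards [hΩ.mem_nhds hyΩ] with x hx
    rw [indicator_of_mem hx]
  have hc := core_identity m i1 (lebesgue_of_continuousAt m hcont) hR
    (i3.congr_fun (fun s hs => (hG s hs).symm) measurableSet_Ioc)
  rw [setIntegral_congr_fun measurableSet_Ioc hG, e3, indicator_of_mem hyΩ] at hc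
  exact hc

theorem potential_identity {Ω : Set E} (hΩ : IsOpen Ω) (hb : Bornology.IsBounded Ω) {R : ℝ}
    (hR : 0 < R) (ν : Measure E) [IsFiniteMeasure ν] (hν : ∀ᵐ y ∂ν, closedBall y (2 * R) ⊆ Ω)
    {ζ : E → ℝ} (hζ : IsWTest Ω ζ) :
    -∫ x in Ω, (pot (Module.finrank ℝ E) R ν x).toReal * Δ ζ x ∂m
      = mass m * ∫ y in Ω, ζ y ∂ν
        - ∫ x in Ω, ζ x * (∫ y, rho (Module.finrank ℝ E) R (‖x - y‖ ^ 2) ∂ν) ∂m := by
  set n := Module.finrank ℝ E
  obtain ⟨B, hB0, hB⟩ := exists_rho_bound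
  have hνΩ : ν.restrict Ω = ν := Measure.restrict_eq_self_of_ae_mem
    (hν.mono fun y hy => hy (mem_closedBall_self (by positivity)))
  have i0 : Integrable ζ ν := by
    have := hζ.integrableOn (μ := ν) hb
    rwa [IntegrableOn, hνΩ] at this
  have i1 : Integrable (Ω.indicator ζ) m :=
    (integrable_indicator_iff hΩ.measurableSet).2 (hζ.integrableOn hb)
  have i2 : Integrable (Ω.indicator (Δ ζ)) m :=
    (integrable_indicator_iff hΩ.measurableSet).2 (hζ.integrableOn_laplacian hΩ hb)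
  obtain ⟨C, hC⟩ := hζ.bdd
  obtain ⟨D, hD, hD'⟩ := exists_pot_haar_le m R
  have j1 : Integrable (fun p : E × E => Ω.indicator ζ p.2 * rho n R (‖p.2 - p.1‖ ^ 2))
      (ν.prod m) :=
    (i1.comp_snd ν).mul_bdd (c := B / R ^ n) (Measurable.aestronglyMeasurable (by fun_prop))
      (Eventually.of_forall fun p => by
        rw [Real.norm_of_nonneg (rho_nonneg n hR.le _)]
        exact hB n R _ hR (by positivity))
  have hm2 : AEStronglyMeasurable
      (fun p : E × E => Ω.indicator (Δ ζ) p.2 * (gam n R ‖p.2 - p.1‖).toReal) (ν.prod m) :=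
    i2.1.comp_snd.mul (Measurable.aestronglyMeasurable (by fun_prop))
  have j2 : Integrable
      (fun p : E × E => Ω.indicator (Δ ζ) p.2 * (gam n R ‖p.2 - p.1‖).toReal) (ν.prod m) := by
    refine ⟨hm2, ?_⟩
    rw [hasFiniteIntegral_iff_enorm, lintegral_prod _ hm2.enorm]
    calc ∫⁻ y, ∫⁻ x, ‖Ω.indicator (Δ ζ) x * (gam n R ‖x - y‖).toReal‖ₑ ∂m ∂ν
        ≤ ∫⁻ _, ENNReal.ofReal C * D ∂ν := by
          refine lintegral_mono fun y => ?_
          refine le_trans ?_ (mul_le_mul_right (hD' y) _)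
          rw [pot, ← lintegral_const_mul' _ _ ENNReal.ofReal_ne_top]
          refine lintegral_mono fun x => ?_
          simp only
          rw [enorm_mul, Real.enorm_of_nonneg ENNReal.toReal_nonneg]
          refine mul_le_mul' ?_ ENNReal.ofReal_toReal_le
          by_cases hx : x ∈ Ω
          · rw [indicator_of_mem hx, ← ofReal_norm]
            exact ENNReal.ofReal_le_ofReal (hC x hx)
          · simp [indicator_of_notMem hx]
      _ < ∞ := by
          rw [lintegral_const]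
          exact ENNReal.mul_lt_top (ENNReal.mul_lt_top ENNReal.ofReal_lt_top hD)
            (measure_lt_top _ _)
  have h1 : ∫ y, ∫ x, Ω.indicator (Δ ζ) x * (gam n R ‖x - y‖).toReal ∂m ∂ν
      = ∫ y, (∫ x, Ω.indicator ζ x * rho n R (‖x - y‖ ^ 2) ∂m - mass m * ζ y) ∂ν :=
    integral_congr_ae (hν.mono fun y hy => point_identity m hΩ hb hR hζ hy)
  rw [integral_sub j1.integral_prod_left (i0.const_mul _), integral_const_mul,
    integral_integral_swap (f := fun y x => Ω.indicator (Δ ζ) x * (gam n R ‖x - y‖).toReal) j2,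
    integral_integral_swap (f := fun y x => Ω.indicator ζ x * rho n R (‖x - y‖ ^ 2)) j1] at h1
  have h2 : ∫ x, ∫ y, Ω.indicator (Δ ζ) x * (gam n R ‖x - y‖).toReal ∂ν ∂m
      = ∫ x in Ω, (pot n R ν x).toReal * Δ ζ x ∂m := by
    rw [← integral_indicator hΩ.measurableSet]
    refine integral_congr_ae ?_
    filter_upwards [ae_pot_lt_top m R ν] with x hx
    rw [integral_const_mul]
    simp only [norm_sub_rev x]
    rw [integral_toReal_gam n R ν hx]
    by_cases hx : x ∈ Ω
    · rw [indicator_of_mem hx, indicator_of_mem hx, mul_comm]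
    · simp [indicator_of_notMem hx]
  have h3 : ∫ x, ∫ y, Ω.indicator ζ x * rho n R (‖x - y‖ ^ 2) ∂ν ∂m
      = ∫ x in Ω, ζ x * (∫ y, rho n R (‖x - y‖ ^ 2) ∂ν) ∂m := by
    rw [← integral_indicator hΩ.measurableSet]
    refine integral_congr_ae (Eventually.of_forall fun x => ?_)
    simp only
    rw [integral_const_mul]
    by_cases hx : x ∈ Ω
    · rw [indicator_of_mem hx, indicator_of_mem hx]
    · simp [indicator_of_notMem hx]
  rw [h2, h3] at h1
  rw [hνΩ]
  linarith

end Pool.Agent.Lib.MP_8eef66_an
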