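import Mathlib
import Pool.Agent.Lib.MP_8eef66_an.Repr
import Pool.Agent.Lib.MP_8eef66_an.Density
import Pool.Agent.Lib.MP_8eef66_an.Overlap
import Pool.Agent.Lib.MP_8eef66_an.Linear

/-!
The approximation theorem.
-/

open MeasureTheory Set Filter Topology Metric
open scoped ENNReal Laplacian

namespace Pool.Agent.Lib.MP_8eef66_an

set_option linter.unusedSectionVars false

variable {E : Type*} [NormedAddCommGroup E] [InnerProductSpace ℝ E] [FiniteDimensional ℝ E]
  [MeasurableSpace E] [BorelSpace E] (m : Measure E) [m.IsAddHaarMeasure]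

lemma exists_solution [Nontrivial E] {Ω : Set E} (hΩ : IsOpen Ω) (hb : Bornology.IsBounded Ω)
    {R : ℝ} (hR : 0 < R) (μ : Measure E) [IsFiniteMeasure μ] :
    ∃ M : ℝ, ∀ (ν : Measure E) [IsFiniteMeasure ν], ν ≤ μ →
      (∀ᵐ y ∂ν, closedBall y (2 * R) ⊆ Ω) →
      ∃ w : E → ℝ, Measurable w ∧ (∀ x, |w x| ≤ M) ∧
        IntegrableOn (fun x => (pot (Module.finrank ℝ E) R ν x).toReal / mass m + w x) Ω m ∧
        ∀ ζ, IsWTest Ω ζ →
          -∫ x in Ω, ((pot (Module.finrank ℝ E) R ν x).toReal / mass m + w x) * Δ ζ x ∂m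
            = ∫ y in Ω, ζ y ∂ν := by
  set n := Module.finrank ℝ E
  obtain ⟨C, hC0, hC⟩ := exists_bounded_solution (m := m) hΩ hb
  obtain ⟨B, hB0, hB⟩ := exists_rho_bound
  have hc := mass_pos m
  refine ⟨C * (B / R ^ n * μ.real univ / mass m), fun ν _ hνμ hν => ?_⟩
  have hψm : Measurable fun x : E => ∫ y, rho n R (‖x - y‖ ^ 2) ∂ν := by
    refine (StronglyMeasurable.integral_prod_right (f := fun x y : E => rho n R (‖x - y‖ ^ 2))
      (Measurable.stronglyMeasurable ?_)).measurable
    unfold Function.uncurry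
    fun_prop
  obtain ⟨w, hwm, hwb, hw⟩ := hC (fun x => (∫ y, rho n R (‖x - y‖ ^ 2) ∂ν) / mass m)
    (B / R ^ n * μ.real univ / mass m) (hψm.div_const _)
    (fun x => div_nonneg (integral_nonneg fun y => rho_nonneg n hR.le _) hc.le)
    (fun x => by
      refine div_le_div_of_nonneg_right ?_ hc.le
      have h1 : ‖∫ y, rho n R (‖x - y‖ ^ 2) ∂ν‖ ≤ B / R ^ n * ν.real univ :=
        norm_integral_le_of_norm_le_const (Eventually.of_forall fun y => by
          rw [Real.norm_of_nonneg (rho_nonneg n hR.le _)]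
          exact hB n R _ hR (by positivity))
      have h2 : ν.real univ ≤ μ.real univ :=
        ENNReal.toReal_mono (measure_ne_top _ _) (Measure.le_iff'.1 hνμ _)
      exact (le_abs_self _).trans (h1.trans (mul_le_mul_of_nonneg_left h2 (by positivity))))
  have hp : Integrable (fun x => (pot n R ν x).toReal) m :=
    integrable_toReal_of_lintegral_ne_top (measurable_pot n R ν).aemeasurable
      (lintegral_pot_lt_top m R ν).ne
  have hwi : IntegrableOn w Ω m :=
    IntegrableOn.of_bound hb.measure_lt_top hwm.aestronglyMeasurable _ (Eventually.of_forall hwb)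
  refine ⟨w, hwm, hwb, (hp.integrableOn.div_const _).add hwi, fun ζ hζ => ?_⟩
  obtain ⟨D, hD⟩ := hζ.bdd
  have hDae : ∀ᵐ x ∂m.restrict Ω, ‖Δ ζ x‖ ≤ D :=
    (ae_restrict_iff' hΩ.measurableSet).2 (Eventually.of_forall hD)
  have hLm := (hζ.integrableOn_laplacian (m := m) hΩ hb).1
  have i1 : IntegrableOn (fun x => (pot n R ν x).toReal * Δ ζ x) Ω m :=
    hp.integrableOn.mul_bdd hLm hDae
  have i2 : IntegrableOn (fun x => w x * Δ ζ x) Ω m := hwi.mul_bdd hLm hDae
  have e1 : (fun x => ((pot n R ν x).toReal / mass m + w x) * Δ ζ x)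
      = fun x => (pot n R ν x).toReal * Δ ζ x / mass m + w x * Δ ζ x := by
    funext x
    ring
  have h1 := potential_identity m hΩ hb hR ν hν hζ
  have h2 := hw ζ hζ
  simp only [← mul_div_assoc] at h2
  rw [integral_div] at h2
  rw [e1, integral_add (i1.div_const _) i2, integral_div, neg_add, h2, ← neg_div, h1]
  field_simp
  ring

lemma exists_eta (n : ℕ) {e : ℝ} (he : 0 < e) :
    ∃ η : ℝ, 0 < η ∧ η < 1 ∧ (1 - e) * (1 + η) ^ n ≤ 1 - e / 2 := by
  have h1 : Tendsto (fun η : ℝ => (1 - e) * (1 + η) ^ n) (𝓝[>] 0) (𝓝 ((1 - e) * (1 + 0) ^ n)) :=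
    (Continuous.tendsto (by fun_prop) 0).mono_left nhdsWithin_le_nhds
  have h2 : (1 - e) * (1 + 0 : ℝ) ^ n < 1 - e / 2 := by
    simp
    linarith
  obtain ⟨η, h3, h4⟩ := ((h1.eventually (gt_mem_nhds h2)).and (Ioo_mem_nhdsGT one_pos)).exists
  exact ⟨η, h4.1, h4.2, h3.le⟩

/-- Uniform smallness of a set near a compact set, on the balls used in the averaging. -/
lemma half_ball {Z A : Set E} (hA : IsCompact A) {η r₀ : ℝ} (hη : 0 < η) (hη1 : η < 1)
    (hAZ : A ⊆ closure {x | ∀ r ∈ Ioc 0 r₀, m (Z ∩ closedBall x r) ≤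
      ENNReal.ofReal ((η / 4) ^ Module.finrank ℝ E) / 2 * m (closedBall x r)})
    {y : E} (hy0 : 0 < infDist y A) (hy1 : infDist y A ≤ r₀ / 4) :
    m (Z ∩ closedBall y (η * infDist y A)) ≤ m (closedBall y (η * infDist y A)) / 2 := by
  have hne : A.Nonempty := by
    rcases A.eq_empty_or_nonempty with rfl | h
    · simp at hy0
    · exact h
  set d := infDist y A
  obtain ⟨x, hx, hxy⟩ := hA.exists_infDist_eq_dist hne y
  obtain ⟨x', hx', hxx'⟩ := Metric.mem_closure_iff.1 (hAZ hx) d hy0
  have hsub : closedBall y (η * d) ⊆ closedBall x' (4 * d) := by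
    refine closedBall_subset_closedBall' ?_
    have h1 := dist_triangle y x x'
    have h2 : dist y x = d := hxy.symm
    nlinarith
  refine (measure_mono (inter_subset_inter_right _ hsub)).trans
    ((hx' (4 * d) ⟨by positivity, by linarith⟩).trans (le_of_eq ?_))
  rw [measure_ball_eq m x' (by positivity), measure_ball_eq m y (by positivity),
    show η * d = η / 4 * (4 * d) by ring, vol_mul m (a := η / 4) (by positivity),
    ENNReal.div_eq_inv_mul, ENNReal.div_eq_inv_mul, mul_assoc]

theorem main_approx [Nontrivial E] {Ω : Set E} (hΩ : IsOpen Ω) (hb : Bornology.IsBounded Ω)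
    {g : ℝ → ℝ} (hg : Monotone g) (μ : Measure E) [IsFiniteMeasure μ] (hμ : μ Ωᶜ = 0)
    {u : E → ℝ} (hu : IntegrableOn u Ω m) (hgu : IntegrableOn (fun x => g (u x)) Ω m)
    (heq : ∀ ζ : E → ℝ, (∀ k : ℕ∞, ContDiff ℝ k ζ) → tsupport ζ ⊆ Ω →
      -∫ x in Ω, u x * Δ ζ x ∂m + ∫ x in Ω, g (u x) * ζ x ∂m = ∫ x in Ω, ζ x ∂μ)
    {ε : ℝ≥0∞} (hε : ε ≠ 0) :
    ∃ ν τ : Measure E, μ = ν + τ ∧ τ univ ≤ ε ∧ ∃ v : E → ℝ, IntegrableOn v Ω m ∧
      (∀ ζ, IsWTest Ω ζ → -∫ x in Ω, v x * Δ ζ x ∂m = ∫ y in Ω, ζ y ∂ν) ∧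
      IntegrableOn (fun x => g (v x)) Ω m := by
  set n := Module.finrank ℝ E
  have hε4 : ε / 2 / 2 ≠ 0 := (ENNReal.half_pos (ENNReal.half_pos hε).ne').ne'
  have hc := mass_pos m
  -- a compact set carrying most of the mass
  obtain ⟨K₀, hK₀Ω, hK₀, hK₀μ⟩ :=
    hΩ.measurableSet.exists_isCompact_sdiff_lt (μ := μ) (measure_ne_top _ _) hε4
  obtain ⟨δ, hδ, hδΩ⟩ := hK₀.exists_cthickening_subset_open hΩ hK₀Ω
  set R := δ / 3 with hRdef
  have hR : 0 < R := by positivity
  have hball : ∀ x ∈ K₀, closedBall x (3 * R) ⊆ Ω := fun x hx => by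
    rw [show 3 * R = δ by rw [hRdef]; ring]
    exact (closedBall_subset_cthickening hx δ).trans hδΩ
  -- lower bound for the solution
  set u' := Ω.indicator u with hu'
  set f' := Ω.indicator fun x => g (u x) with hf'
  have hu'i : Integrable u' m := (integrable_indicator_iff hΩ.measurableSet).2 hu
  have hf'i : Integrable f' m := (integrable_indicator_iff hΩ.measurableSet).2 hgu
  set σ := m.withDensity fun x => ‖f' x‖ₑ with hσ
  have : IsFiniteMeasure σ := isFiniteMeasure_withDensity hf'i.2.ne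
  obtain ⟨C₀, hC₀⟩ := lower_bound m hu'i hf'i μ hR
  have hμΩ : μ.restrict Ω = μ := Measure.restrict_eq_self_of_ae_mem hμ
  have hlow : ∀ᵐ z ∂m, closedBall z (2 * R) ⊆ Ω →
      (pot n R μ z).toReal - (pot n R σ z).toReal - C₀ ≤ mass m * u z := by
    filter_upwards [hC₀] with z hz hzΩ
    have hz' : z ∈ Ω := hzΩ (mem_closedBall_self (by positivity))
    have h1 : u' z = u z := indicator_of_mem hz' _
    rw [← h1]
    refine hz fun s hs => ?_
    have h2 := heq (fun x => eta n s (‖x - z‖ ^ 2)) (fun k => contDiff_eta_normSq n s z)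
      ((tsupport_eta n hs.1 z).trans
        ((closedBall_subset_closedBall (by linarith [hs.2])).trans hzΩ))
    rw [hμΩ, ← integral_indicator hΩ.measurableSet, ← integral_indicator hΩ.measurableSet] at h2
    have h3 : ∀ x, Δ (fun x : E => eta n s (‖x - z‖ ^ 2)) x = lam n s (‖x - z‖ ^ 2) :=
      laplacian_eta hs.1 z
    simp only [h3, indicator_mul_left] at h2
    exact h2
  obtain ⟨M, hM⟩ := exists_solution m hΩ hb hR μ
  -- the part with bounded potential
  set P := {x | pot n R μ x = ∞} with hP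
  have hPm : MeasurableSet P := measurable_pot _ R μ (measurableSet_singleton ∞)
  have hP0 : m P = 0 := by
    have := ae_pot_lt_top m R μ
    rw [ae_iff] at this
    simpa [hP] using this
  obtain ⟨j₁, K₁, hK₁, hK₁T, hK₁S, hK₁μ⟩ := exists_compact_exhaust μ
    (hK₀.measurableSet.diff hPm) (S := fun j : ℕ => {x | pot n R μ x ≤ j})
    (fun j => measurableSet_le (measurable_pot n R μ) measurable_const)
    (fun i j hij x (hx : pot n R μ x ≤ i) => hx.trans (by exact_mod_cast hij))
    (Eventually.of_forall fun x hx => by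
      obtain ⟨j, hj⟩ := ENNReal.exists_nat_gt hx.2
      exact ⟨j, hj.le⟩) hε4
  set k' := ENNReal.ofReal (2 ^ n) * (j₁ + (∫⁻ s in Ioc R (2 * R), kf n s) * μ univ) with hk'
  have hk't : k' ≠ ∞ := ENNReal.mul_ne_top ENNReal.ofReal_ne_top (ENNReal.add_ne_top.2
    ⟨ENNReal.natCast_ne_top _,
      ENNReal.mul_ne_top (lintegral_kf_lt_top n hR _).ne (measure_ne_top _ _)⟩)
  have hK₁pot : ∀ y, pot n R (μ.restrict K₁) y ≤ k' := pot_restrict_le n hR μ hK₁ hK₁S
  -- parameters
  obtain ⟨e, he0, he1, heμ⟩ : ∃ e : ℝ, 0 < e ∧ e < 1 ∧ ENNReal.ofReal e * μ univ ≤ ε / 2 / 2 := by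
    obtain ⟨e, he0, he⟩ := ENNReal.exists_nnreal_pos_mul_lt (measure_ne_top μ univ) hε4
    refine ⟨min e (1 / 2), lt_min he0 (by norm_num), (min_le_right _ _).trans_lt (by norm_num),
      le_trans (mul_le_mul_left ?_ _) he.le⟩
    exact (ENNReal.ofReal_le_ofReal (min_le_left _ _)).trans ENNReal.ofReal_coe_nnreal.le
  obtain ⟨η, hη0, hη1, hη⟩ := exists_eta n he0
  set D := (∫⁻ s in Ioc R ((1 + η) * R), kf n s) * μ univ with hD
  have hDt : D ≠ ∞ := ENNReal.mul_ne_top (lintegral_kf_lt_top n hR _).ne (measure_ne_top _ _)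
  set L := 2 / e * |C₀ + D.toReal + k'.toReal + mass m * M| with hL
  have hL0 : 0 ≤ L := by positivity
  set Z := {y | pot n R μ y ≤ ENNReal.ofReal (2 / e) * pot n R σ y + ENNReal.ofReal L} with hZ
  have hZm : MeasurableSet Z :=
    measurableSet_le (measurable_pot n R μ) (((measurable_pot n R σ).const_mul _).add_const _)
  have hθ : ENNReal.ofReal ((η / 4) ^ n) / 2 ≠ 0 :=
    (ENNReal.half_pos (ENNReal.ofReal_pos.2 (by positivity)).ne').ne'
  -- the concentrated part
  obtain ⟨j₂, A, hA, hAT, hAS, hAμ⟩ := exists_compact_exhaust μ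
    (hK₀.measurableSet.inter hPm)
    (S := fun j : ℕ => closure {x | ∀ r ∈ Ioc 0 (1 / ((j : ℝ) + 1)), m (Z ∩ closedBall x r) ≤
      ENNReal.ofReal ((η / 4) ^ n) / 2 * m (closedBall x r)})
    (fun j => measurableSet_closure)
    (fun i j hij => closure_mono fun x hx r hr =>
      hx r ⟨hr.1, hr.2.trans (Nat.one_div_le_one_div hij)⟩)
    (by
      filter_upwards [ae_density m hR μ σ (withDensity_absolutelyContinuous _ _)
        (κ := ENNReal.ofReal (2 / e)) (L := ENNReal.ofReal L) ENNReal.ofReal_ne_top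
        ENNReal.ofReal_ne_top hθ] with x hx hxT
      obtain ⟨t, ht, ht'⟩ := (nhdsGT_basis_Ioc (0 : ℝ)).eventually_iff.1 (hx hxT.2)
      obtain ⟨j, hj⟩ := exists_nat_one_div_lt ht
      exact ⟨j, subset_closure fun r hr => ht' ⟨hr.1, hr.2.trans hj.le⟩⟩) hε4
  have hdisj : Disjoint A K₁ := Set.disjoint_left.2 fun x hx hx' => (hK₁T hx').2 (hAT hx).2
  set ν := ENNReal.ofReal (1 - e) • μ.restrict A + μ.restrict K₁ with hν
  set τ := ENNReal.ofReal e • μ.restrict A + μ.restrict (A ∪ K₁)ᶜ with hτ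
  have hsum : μ = ν + τ := by
    have h1 : ENNReal.ofReal (1 - e) + ENNReal.ofReal e = 1 := by
      rw [← ENNReal.ofReal_add (by linarith) he0.le]
      simp
    rw [hν, hτ, add_add_add_comm, ← add_smul, h1, one_smul, ← add_assoc,
      ← Measure.restrict_union hdisj hK₁.measurableSet,
      Measure.restrict_add_restrict_compl (hA.measurableSet.union hK₁.measurableSet)]
  have hνμ : ν ≤ μ := by
    rw [hsum]
    exact Measure.le_add_right le_rfl
  have : IsFiniteMeasure ν := isFiniteMeasure_of_le μ hνμ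
  have hτε : τ univ ≤ ε := by
    have h1 : μ (A ∪ K₁)ᶜ ≤ ε / 2 / 2 + (ε / 2 / 2 + ε / 2 / 2) := by
      calc μ (A ∪ K₁)ᶜ ≤ μ (Ωᶜ ∪ ((Ω \ K₀) ∪ (((K₀ ∩ P) \ A) ∪ ((K₀ \ P) \ K₁)))) := by
            refine measure_mono fun x hx => ?_
            simp only [mem_compl_iff, mem_union, not_or, Set.mem_sdiff, mem_inter_iff] at hx ⊢
            tauto
        _ ≤ 0 + (ε / 2 / 2 + (ε / 2 / 2 + ε / 2 / 2)) :=
            (measure_union_le _ _).trans (add_le_add hμ.le ((measure_union_le _ _).trans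
              (add_le_add hK₀μ.le ((measure_union_le _ _).trans (add_le_add hAμ hK₁μ)))))
        _ = _ := zero_add _
    have h2 : ENNReal.ofReal e * μ A ≤ ε / 2 / 2 :=
      (mul_le_mul_right (measure_mono (subset_univ _)) _).trans heμ
    rw [hτ, Measure.add_apply, Measure.smul_apply, Measure.restrict_apply_univ,
      Measure.restrict_apply_univ, smul_eq_mul]
    refine (add_le_add h2 h1).trans (le_of_eq ?_)
    rw [← add_assoc, ENNReal.add_halves, ENNReal.add_halves]
  have hνK : ∀ᵐ y ∂ν, closedBall y (2 * R) ⊆ Ω := by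
    have h1 : ∀ y ∈ K₀, closedBall y (2 * R) ⊆ Ω := fun y hy =>
      (closedBall_subset_closedBall (by linarith)).trans (hball y hy)
    rw [hν, ae_add_measure_iff]
    refine ⟨Measure.ae_smul_measure ?_ _, ?_⟩
    · exact (ae_restrict_mem hA.measurableSet).mono fun y hy => h1 y (hAT hy).1
    · exact (ae_restrict_mem hK₁.measurableSet).mono fun y hy => h1 y (hK₁T hy).1
  obtain ⟨w, hwm, hwb, hvi, hv⟩ := hM ν hνμ hνK
  set v : E → ℝ := fun x => (pot n R ν x).toReal / mass m + w x with hvdef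
  refine ⟨ν, τ, hsum, hτε, v, hvi, hv, ?_⟩
  have hpotν : ∀ y, pot n R ν y
      ≤ ENNReal.ofReal (1 - e) * pot n R (μ.restrict A) y + k' := fun y => by
    rw [hν, pot_add, pot_smul]
    exact add_le_add le_rfl (hK₁pot y)
  set d₀ := min (1 / ((j₂ : ℝ) + 1) / 4) (R / 2) with hd₀
  have hd₀0 : 0 < d₀ := lt_min (by positivity) (by positivity)
  set S := {y | 0 < infDist y A ∧ infDist y A ≤ d₀} with hS
  have hdc : Continuous fun y : E => infDist y A := continuous_infDist_pt A
  have hSm : MeasurableSet S :=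
    (measurableSet_lt measurable_const hdc.measurable).inter
      (measurableSet_le hdc.measurable measurable_const)
  -- the estimate near the concentrated part
  have hnear : ∫⁻ y in S, ENNReal.ofReal (g (v y)) ∂m < ∞ := by
    refine overlap m A σ hη0 hη1 hSm fun y hy => ⟨hy.1, ?_⟩
    have hne : A.Nonempty := by
      rcases A.eq_empty_or_nonempty with h | h
      · have := hy.1
        simp [h] at this
      · exact h
    rw [hσ, withDensity_apply _ measurableSet_closedBall]
    refine mul_measure_le_of_half m measurableSet_closedBall hZm measure_closedBall_lt_top.ne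
      (half_ball m hA hη0 hη1 hAS hy.1 (hy.2.trans (min_le_left _ _))) ?_
    filter_upwards [hlow, ae_pot_lt_top m R μ, ae_pot_lt_top m R σ] with z hz h1 h2 hzB hzZ
    obtain ⟨x, hx, hxy⟩ := hA.exists_infDist_eq_dist hne y
    have hdR : infDist y A ≤ R / 2 := hy.2.trans (min_le_right _ _)
    have hd0 := hy.1
    rw [mem_closedBall] at hzB
    have hzΩ : closedBall z (2 * R) ⊆ Ω := by
      refine (closedBall_subset_closedBall' ?_).trans (hball x (hAT hx).1)
      have := dist_triangle z y x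
      nlinarith
    have hz' : z ∈ Ω := hzΩ (mem_closedBall_self (by positivity))
    have a1 := hz hzΩ
    have a2 : pot n R (μ.restrict A) y ≤ ENNReal.ofReal ((1 + η) ^ n) * (pot n R μ z + D) := by
      refine pot_compare n hR (by linarith) μ hA.measurableSet fun a ha => ?_
      have b1 : infDist y A ≤ dist y a := infDist_le_dist_of_mem ha
      have b2 := dist_triangle a y z
      rw [← dist_eq_norm, ← dist_eq_norm]
      rw [dist_comm y a] at b1
      rw [dist_comm y z] at b2
      nlinarith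
    have a3 : (pot n R ν y).toReal
        ≤ (1 - e) * ((1 + η) ^ n * ((pot n R μ z).toReal + D.toReal)) + k'.toReal := by
      have b1 : pot n R ν y ≤ ENNReal.ofReal (1 - e) *
          (ENNReal.ofReal ((1 + η) ^ n) * (pot n R μ z + D)) + k' :=
        (hpotν y).trans (add_le_add (mul_le_mul_right a2 _) le_rfl)
      have b2 : pot n R μ z + D ≠ ∞ := ENNReal.add_ne_top.2 ⟨h1.ne, hDt⟩
      have b3 : ENNReal.ofReal (1 - e) *
          (ENNReal.ofReal ((1 + η) ^ n) * (pot n R μ z + D)) ≠ ∞ :=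
        ENNReal.mul_ne_top ENNReal.ofReal_ne_top (ENNReal.mul_ne_top ENNReal.ofReal_ne_top b2)
      refine (ENNReal.toReal_mono (ENNReal.add_ne_top.2 ⟨b3, hk't⟩) b1).trans (le_of_eq ?_)
      rw [ENNReal.toReal_add b3 hk't, ENNReal.toReal_mul, ENNReal.toReal_mul,
        ENNReal.toReal_add h1.ne hDt, ENNReal.toReal_ofReal (by linarith),
        ENNReal.toReal_ofReal (by positivity)]
    have a4 : 2 / e * (pot n R σ z).toReal + L ≤ (pot n R μ z).toReal := by
      have b1 : ENNReal.ofReal (2 / e) * pot n R σ z + ENNReal.ofReal L ≤ pot n R μ z :=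
        (not_le.1 hzZ).le
      refine le_trans (le_of_eq ?_) (ENNReal.toReal_mono h1.ne b1)
      rw [ENNReal.toReal_add (ENNReal.mul_ne_top ENNReal.ofReal_ne_top h2.ne)
        ENNReal.ofReal_ne_top, ENNReal.toReal_mul, ENNReal.toReal_ofReal (by positivity),
        ENNReal.toReal_ofReal hL0]
    have a5 : v y ≤ u z := by
      have b0 : mass m * v y = (pot n R ν y).toReal + mass m * w y := by
        simp only [hvdef]
        field_simp
      have b1 : mass m * w y ≤ mass m * M :=
        mul_le_mul_of_nonneg_left ((le_abs_self _).trans (hwb y)) hc.le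
      have b2 : (pot n R σ z).toReal + |C₀ + D.toReal + k'.toReal + mass m * M|
          ≤ e / 2 * (pot n R μ z).toReal := by
        have b3 := mul_le_mul_of_nonneg_left a4 (half_pos he0).le
        have b4 : e / 2 * (2 / e * (pot n R σ z).toReal + L)
            = (pot n R σ z).toReal + |C₀ + D.toReal + k'.toReal + mass m * M| := by
          rw [hL]
          field_simp
        linarith
      have b5 := le_abs_self (C₀ + D.toReal + k'.toReal + mass m * M)
      have b6 : 0 ≤ (pot n R μ z).toReal + D.toReal := by positivity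
      have b7 := mul_le_mul_of_nonneg_right hη b6
      have b8 : 0 ≤ e / 2 * D.toReal := by positivity
      refine le_of_mul_le_mul_left ?_ hc
      nlinarith
    have a6 : f' z = g (u z) := indicator_of_mem hz' _
    rw [a6]
    exact (ENNReal.ofReal_le_ofReal (hg a5)).trans (Real.ofReal_le_enorm _)
  -- conclusion
  set T := ENNReal.ofReal (1 - e) * (gam n R d₀ * μ univ) + k' with hT
  have hTt : T ≠ ∞ := ENNReal.add_ne_top.2 ⟨ENNReal.mul_ne_top ENNReal.ofReal_ne_top
    (ENNReal.mul_ne_top (gam_lt_top n R hd₀0).ne (measure_ne_top _ _)), hk't⟩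
  have hvm : Measurable v := ((measurable_pot n R ν).ennreal_toReal.div_const _).add hwm
  refine ⟨(hg.measurable.comp hvm).aestronglyMeasurable, ?_⟩
  rw [hasFiniteIntegral_iff_enorm]
  have hA0 : ∀ᵐ y ∂m, y ∉ A := by
    rw [ae_iff]
    exact measure_mono_null (fun y hy => (hAT (not_not.1 hy)).2) hP0
  have hbound : ∀ᵐ y ∂m.restrict Ω, ‖g (v y)‖ₑ ≤ S.indicator (fun y => ENNReal.ofReal (g (v y))) y
      + (ENNReal.ofReal (g (T.toReal / mass m + M)) + ENNReal.ofReal (-g (-M))) := by
    filter_upwards [ae_restrict_of_ae hA0] with y hy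
    have h1 : -M ≤ v y := by
      have := (abs_le.1 (hwb y)).1
      have h2 : 0 ≤ (pot n R ν y).toReal / mass m := by positivity
      simp only [hvdef]
      linarith
    have h2 : ‖g (v y)‖ₑ ≤ ENNReal.ofReal (g (v y)) + ENNReal.ofReal (-g (-M)) := by
      rw [Real.enorm_eq_ofReal_abs]
      rcases le_total 0 (g (v y)) with h | h
      · rw [abs_of_nonneg h]
        exact le_self_add
      · rw [abs_of_nonpos h]
        exact (ENNReal.ofReal_le_ofReal (neg_le_neg (hg h1))).trans le_add_self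
    refine h2.trans ?_
    rw [← add_assoc]
    refine add_le_add ?_ le_rfl
    by_cases hyS : y ∈ S
    · rw [indicator_of_mem hyS]
      exact le_self_add
    · have h3 : ∀ z ∈ A, d₀ ≤ ‖z - y‖ := fun z hz => by
        have b1 : 0 < infDist y A := (hA.isClosed.notMem_iff_infDist_pos ⟨z, hz⟩).1 hy
        have b2 : d₀ < infDist y A := not_le.1 fun h => hyS ⟨b1, h⟩
        rw [← dist_eq_norm, dist_comm]
        exact b2.le.trans (infDist_le_dist_of_mem hz)
      have h4 : pot n R ν y ≤ T := (hpotν y).trans (add_le_add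
        (mul_le_mul_right (pot_far n R μ hA.measurableSet hd₀0.le h3) _) le_rfl)
      have h5 : v y ≤ T.toReal / mass m + M :=
        add_le_add (div_le_div_of_nonneg_right (ENNReal.toReal_mono hTt h4) hc.le)
          ((le_abs_self _).trans (hwb y))
      exact (ENNReal.ofReal_le_ofReal (hg h5)).trans le_add_self
  refine (lintegral_mono_ae hbound).trans_lt ?_
  rw [lintegral_add_right _ measurable_const, setLIntegral_const]
  refine ENNReal.add_lt_top.2 ⟨(setLIntegral_le_lintegral _ _).trans_lt ?_,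
    ENNReal.mul_lt_top (ENNReal.add_lt_top.2 ⟨ENNReal.ofReal_lt_top, ENNReal.ofReal_lt_top⟩)
      hb.measure_lt_top⟩
  rwa [lintegral_indicator hSm]

end Pool.Agent.Lib.MP_8eef66_an
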