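import Mathlib
import Pool.Agent.Lib.MP_8eef66_an.Defs
import Pool.Agent.Lib.MP_8eef66_an.Main

/-!
Comparison of the test function classes and the total variation computation.
-/

open MeasureTheory Set Filter Topology Metric
open scoped ENNReal Laplacian

namespace Pool.Agent.Lib.MP_8eef66_an

lemma laplacian_bounded {E : Type*} [NormedAddCommGroup E] [InnerProductSpace ℝ E]
    [FiniteDimensional ℝ E] {Ω : Set E} (hΩ : IsOpen Ω) (hb : Bornology.IsBounded Ω)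
    {ζ : E → ℝ} (hζ : ContDiffOn ℝ (2 : ℕ) ζ (closure Ω)) : ∃ C, ∀ x ∈ Ω, |Δ ζ x| ≤ C := by
  have key : ∃ C, ∀ x ∈ closure Ω, x ∈ Ω → |Δ ζ x| ≤ C := by
    refine hb.isCompact_closure.induction_on (p := fun s => ∃ C, ∀ x ∈ s, x ∈ Ω → |Δ ζ x| ≤ C)
      ⟨0, by simp⟩ ?_ ?_ ?_
    · rintro s t hst ⟨C, hC⟩
      exact ⟨C, fun x hx => hC x (hst hx)⟩
    · rintro s t ⟨C, hC⟩ ⟨D, hD⟩
      refine ⟨max C D, fun x hx hxΩ => ?_⟩
      rcases hx with hx | hx
      · exact (hC x hx hxΩ).trans (le_max_left _ _)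
      · exact (hD x hx hxΩ).trans (le_max_right _ _)
    · intro x hx
      obtain ⟨U, hU, p, hp⟩ := contDiffWithinAt_nat.1 (hζ x hx)
      rw [insert_eq_of_mem hx] at hU
      have hxU : x ∈ U := mem_of_mem_nhdsWithin hx hU
      have hc : ContinuousWithinAt (fun y => ‖p y 2‖) U x := (hp.cont 2 le_rfl x hxU).norm
      have h1 : ∀ᶠ y in 𝓝[closure Ω] x, ‖p y 2‖ < ‖p x 2‖ + 1 :=
        (hc.tendsto.eventually (gt_mem_nhds (lt_add_one _))).filter_mono
          (nhdsWithin_le_of_mem hU)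
      obtain ⟨W, hWo, hxW, hW⟩ := mem_nhdsWithin.1 (inter_mem hU h1)
      refine ⟨W ∩ closure Ω, mem_nhdsWithin.2 ⟨W, hWo, hxW, Subset.rfl⟩,
        Module.finrank ℝ E * (‖p x 2‖ + 1), fun y hy hyΩ => ?_⟩
      have hO : IsOpen (W ∩ Ω) := hWo.inter hΩ
      have hsub : W ∩ Ω ⊆ U := fun z hz => (hW ⟨hz.1, subset_closure hz.2⟩).1
      have h2 : p y 2 = iteratedFDeriv ℝ 2 ζ y := by
        rw [(hp.mono hsub).eq_iteratedFDerivWithin_of_uniqueDiffOn le_rfl hO.uniqueDiffOn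
          ⟨hy.1, hyΩ⟩, iteratedFDerivWithin_of_isOpen 2 hO ⟨hy.1, hyΩ⟩]
      have h3 : ‖iteratedFDeriv ℝ 2 ζ y‖ ≤ ‖p x 2‖ + 1 := h2 ▸ (hW hy).2.le
      rw [InnerProductSpace.laplacian_eq_iteratedFDeriv_stdOrthonormalBasis]
      refine (Finset.abs_sum_le_sum_abs _ _).trans ?_
      refine (Finset.sum_le_card_nsmul _ _ (‖p x 2‖ + 1) fun i _ => ?_).trans (by simp [mul_add])
      refine ((iteratedFDeriv ℝ 2 ζ y).le_opNorm _).trans ?_
      simpa using h3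
  obtain ⟨C, hC⟩ := key
  exact ⟨C, fun x hx => hC x (subset_closure hx) hx⟩

variable {N : ℕ}

lemma IsTest.isWTest {Ω : Set (Euc N)} (hΩ : IsOpen Ω) (hb : Bornology.IsBounded Ω)
    {ζ : Euc N → ℝ} (h : IsTest Ω ζ) : IsWTest Ω ζ where
  cont := h.1.continuousOn
  smooth := fun x hx => (h.1.contDiffAt (mem_of_superset (hΩ.mem_nhds hx) subset_closure)).of_le
    (WithTop.coe_le_coe.2 (le_top : (2 : ℕ∞) ≤ ⊤))
  bdry := h.2
  bdd := laplacian_bounded hΩ hb (h.1.of_le (WithTop.coe_le_coe.2 (le_top : (2 : ℕ∞) ≤ ⊤)))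

lemma isTest_of_tsupport {Ω : Set (Euc N)} (hΩ : IsOpen Ω) {ζ : Euc N → ℝ}
    (h : ∀ k : ℕ∞, ContDiff ℝ k ζ) (hs : tsupport ζ ⊆ Ω) : IsTest Ω ζ :=
  ⟨(h ⊤).contDiffOn, fun x hx => image_eq_zero_of_notMem_tsupport fun hx' => by
    rw [hΩ.frontier_eq] at hx
    exact hx.2 (hs hx')⟩

lemma totalVariation_sub_of_add {α : Type*} [MeasurableSpace α] {μ ν τ : Measure α}
    [IsFiniteMeasure μ] [IsFiniteMeasure ν] (h : μ = ν + τ) :
    (ν.toSignedMeasure - μ.toSignedMeasure).totalVariation univ = τ univ := by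
  have : IsFiniteMeasure τ := isFiniteMeasure_of_le μ (h ▸ Measure.le_add_left le_rfl)
  have h1 : ν.toSignedMeasure - μ.toSignedMeasure
      = (JordanDecomposition.mk 0 τ Measure.MutuallySingular.zero_left).toSignedMeasure := by
    rw [Measure.toSignedMeasure_congr h, Measure.toSignedMeasure_add,
      JordanDecomposition.toSignedMeasure]
    simp
  rw [SignedMeasure.totalVariation, SignedMeasure.toJordanDecomposition_eq h1]
  simp

end Pool.Agent.Lib.MP_8eef66_an
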